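import Pool.Agent.Lib.MP_f09365_an.M.Op

open scoped Classical
open Topology Filter

noncomputable section

namespace Pool.Agent.Lib.MP_f09365_an.M

lemma sg_mul_self' (c : ℤ) (l : ℕ) (a : ℤ) (s : R) :
    (sg c l a s : ℂ) * (sg c l a s : ℂ) = 1 := by
  exact_mod_cast sg_mul_self c l a s

lemma Adm.mul {h h' : C(X, ℂ)} {m m' : ℤ} {s t r : R} (a : Adm h m s t) (b : Adm h' m' t r) :
    Adm (h * h'.comp (shC m)) (m + m') s r := by
  refine ⟨fun c l x => ?_, fun x c hc hx => ?_⟩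
  · simp only [ContinuousMap.mul_apply, ContinuousMap.comp_apply, shC_apply]
    rw [sh_flp, a.1, b.1, sg_sub, sg_sub, zero_add, add_comm m' m]
    linear_combination (sg c l 0 s : ℂ) * (sg c l (m + m') r : ℂ) * h x * h' (sh m x) *
      sg_mul_self' c l m t
  · simp only [ContinuousMap.mul_apply, ContinuousMap.comp_apply, shC_apply]
    by_cases h1 : Btw 0 m c
    · rw [a.2 x c h1 hx, zero_mul]
    · rw [b.2 (sh m x) (c - m) (by unfold Btw at *; omega) (by simpa using hx), mul_zero]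

lemma Adm.star {h : C(X, ℂ)} {m : ℤ} {s t : R} (a : Adm h m s t) :
    Adm (star (h.comp (shC (-m)))) (-m) t s := by
  refine ⟨fun c l x => ?_, fun x c hc hx => ?_⟩
  · simp only [ContinuousMap.star_apply, ContinuousMap.comp_apply, shC_apply]
    rw [sh_flp, a.1, sg_sub, sg_sub, zero_add, add_neg_cancel]
    simp only [star_mul', Complex.star_def, Complex.conj_ofReal]
    ring
  · simp only [ContinuousMap.star_apply, ContinuousMap.comp_apply, shC_apply]
    rw [a.2 (sh (-m) x) (c + m) (by unfold Btw at *; omega) (by simpa using hx), star_zero]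

lemma Adm.smul {h : C(X, ℂ)} {m : ℤ} {s t : R} (a : Adm h m s t) (z : ℂ) : Adm (z • h) m s t := by
  refine ⟨fun c l x => ?_, fun x c hc hx => ?_⟩
  · simp only [ContinuousMap.smul_apply, smul_eq_mul, a.1]
    ring
  · simp only [ContinuousMap.smul_apply, a.2 x c hc hx, smul_zero]

lemma adm_const (c : ℂ) {s t : R} (h : ∀ l, IsTop s l ↔ IsTop t l) :
    Adm (ContinuousMap.const X c) 0 s t := by
  refine ⟨fun c' l x => ?_, fun x c' hc _ => ?_⟩
  · have : sg c' l 0 t = sg c' l 0 s := by simp only [sg, h]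
    rw [this, sg_mul_self', one_mul]
    rfl
  · exact absurd hc (by unfold Btw; omega)

lemma Op_mem_Ak {k : ℕ} {h : C(X, ℂ)} {m : ℤ} {s t : R} (hs : Low k s) (ht : Low k t)
    (a : Adm h m s t) : Op k h m s t ∈ Ak k :=
  Submodule.subset_span ⟨h, m, s, t, hs, ht, a, rfl⟩

lemma Ak_mul {k : ℕ} {T T' : H →L[ℂ] H} (h : T ∈ Ak k) (h' : T' ∈ Ak k) : T * T' ∈ Ak k := by
  induction h using Submodule.span_induction with
  | mem T hT =>
    induction h' using Submodule.span_induction with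
    | mem T' hT' =>
      obtain ⟨h, m, s, t, hs, ht, a, rfl⟩ := hT
      obtain ⟨h', m', s', t', hs', ht', a', rfl⟩ := hT'
      rw [Op_mul _ _ _ _ _ _ _ _ _ ht]
      split_ifs with e
      · subst e
        exact Op_mem_Ak hs ht' (a.mul a')
      · exact zero_mem _
    | zero => rw [mul_zero]; exact zero_mem _
    | add _ _ _ _ h1 h2 => rw [mul_add]; exact add_mem h1 h2
    | smul c _ _ h1 => rw [mul_smul_comm]; exact Submodule.smul_mem _ c h1
  | zero => rw [zero_mul]; exact zero_mem _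
  | add _ _ _ _ h1 h2 => rw [add_mul]; exact add_mem h1 h2
  | smul c _ _ h1 => rw [smul_mul_assoc]; exact Submodule.smul_mem _ c h1

lemma Ak_star {k : ℕ} {T : H →L[ℂ] H} (h : T ∈ Ak k) : star T ∈ Ak k := by
  induction h using Submodule.span_induction with
  | mem T hT =>
    obtain ⟨h, m, s, t, hs, ht, a, rfl⟩ := hT
    rw [Op_star _ _ _ hs ht]
    exact Op_mem_Ak ht hs a.star
  | zero => rw [star_zero]; exact zero_mem _
  | add _ _ _ _ h1 h2 => rw [star_add]; exact add_mem h1 h2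
  | smul c _ _ h1 => rw [star_smul]; exact Submodule.smul_mem _ _ h1

lemma one_mem_Ak (k : ℕ) : (1 : H →L[ℂ] H) ∈ Ak k := by
  rw [← sum_Op_one k]
  exact sum_mem fun s hs =>
    Op_mem_Ak (mem_Rk.1 hs) (mem_Rk.1 hs) (adm_const 1 fun _ => Iff.rfl)

lemma Ak_mono {k k' : ℕ} (h : k ≤ k') : Ak k ≤ Ak k' := by
  refine monotone_nat_of_le_succ (f := Ak) (fun k => Submodule.span_le.2 ?_) h
  rintro _ ⟨h, m, s, t, hs, ht, a, rfl⟩
  rw [Op_succ _ _ _ hs ht]
  refine add_mem (Op_mem_Ak (hs.mono k.le_succ) (ht.mono k.le_succ) a) (sum_mem fun w _ => ?_)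
  have h1 := isTop_upd hs le_rfl w
  have h2 := isTop_upd ht le_rfl (w + (m : ZMod (nn k)))
  exact Op_mem_Ak h1.2 h2.2 (adm_const _ fun l =>
    ⟨fun h => h1.unique h ▸ h2, fun h => h2.unique h ▸ h1⟩)

lemma Ak_sub_AA {k : ℕ} {T : H →L[ℂ] H} (h : T ∈ Ak k) : T ∈ AA := by
  induction h using Submodule.span_induction with
  | mem T hT =>
    exact StarSubalgebra.le_topologicalClosure _
      (StarAlgebra.subset_adjoin ℂ _ (Set.mem_iUnion.2 ⟨k, hT⟩))
  | zero => exact zero_mem _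
  | add _ _ _ _ h1 h2 => exact add_mem h1 h2
  | smul c _ _ h1 => exact SMulMemClass.smul_mem c h1

lemma approx {T : H →L[ℂ] H} (h : T ∈ AA) {ε : ℝ} (hε : 0 < ε) :
    ∃ k, ∃ T' ∈ Ak k, ‖T - T'‖ < ε := by
  have key : ∀ T' ∈ StarAlgebra.adjoin ℂ (⋃ k, Gen k), ∃ k, T' ∈ Ak k := by
    intro T' hT'
    induction hT' using StarAlgebra.adjoin_induction with
    | mem T hT =>
      obtain ⟨k, hk⟩ := Set.mem_iUnion.1 hT
      exact ⟨k, Submodule.subset_span hk⟩
    | algebraMap c =>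
      exact ⟨0, by
        rw [Algebra.algebraMap_eq_smul_one]; exact Submodule.smul_mem _ c (one_mem_Ak 0)⟩
    | add _ _ _ _ h1 h2 =>
      obtain ⟨k, hk⟩ := h1
      obtain ⟨k', hk'⟩ := h2
      exact ⟨max k k', add_mem (Ak_mono (le_max_left _ _) hk) (Ak_mono (le_max_right _ _) hk')⟩
    | mul _ _ _ _ h1 h2 =>
      obtain ⟨k, hk⟩ := h1
      obtain ⟨k', hk'⟩ := h2
      exact ⟨max k k', Ak_mul (Ak_mono (le_max_left _ _) hk) (Ak_mono (le_max_right _ _) hk')⟩
    | star _ _ h1 =>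
      obtain ⟨k, hk⟩ := h1
      exact ⟨k, Ak_star hk⟩
  have h' : T ∈ closure (StarAlgebra.adjoin ℂ (⋃ k, Gen k) : Set (H →L[ℂ] H)) := h
  obtain ⟨T', h1, h2⟩ := Metric.mem_closure_iff.1 h' ε hε
  obtain ⟨k, hk⟩ := key T' h1
  exact ⟨k, T', hk, by rwa [dist_eq_norm] at h2⟩

/-- Elements of level `k` are finite sums of elementary operators. -/
lemma Ak_eq_sum {k : ℕ} {T : H →L[ℂ] H} (hT : T ∈ Ak k) :
    ∃ (n : ℕ) (h : Fin n → C(X, ℂ)) (m : Fin n → ℤ) (s t : Fin n → R),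
      (∀ j, Low k (s j) ∧ Low k (t j) ∧ Adm (h j) (m j) (s j) (t j)) ∧
        T = ∑ j, Op k (h j) (m j) (s j) (t j) := by
  obtain ⟨n, f, g, rfl⟩ := Submodule.mem_span_set'.1 hT
  choose h m s t hs ht ha he using fun j => (g j).2
  refine ⟨n, fun j => f j • h j, m, s, t, fun j => ⟨hs j, ht j, (ha j).smul _⟩, ?_⟩
  exact Finset.sum_congr rfl fun j _ => by rw [Op_smul, he]

instance nontrivial_AA : Nontrivial AA := by
  obtain ⟨x⟩ : Nonempty X := inferInstance
  refine ⟨1, 0, fun h => ?_⟩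
  have h1 : (1 : H →L[ℂ] H) = 0 := congrArg Subtype.val h
  have h2 := E_one (x, 0, bot) (x, 0, bot)
  rw [h1, E_zero, if_pos rfl] at h2
  exact zero_ne_one h2

lemma continuous_Op (k : ℕ) (m : ℤ) (s t : R) : Continuous fun h => Op k h m s t := by
  refine LipschitzWith.continuous (K := 1) (LipschitzWith.of_dist_le_mul fun h h' => ?_)
  rw [dist_eq_norm, dist_eq_norm, ← Op_sub, NNReal.coe_one, one_mul]
  exact norm_Op_le _ _ _ _ _

theorem separable_AA : TopologicalSpace.SeparableSpace AA := by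
  have h1 : ∀ k, TopologicalSpace.IsSeparable (Gen k) := by
    intro k
    refine (TopologicalSpace.isSeparable_iUnion.2
      fun p : ℤ × {s : R // Low k s} × {s : R // Low k s} =>
        TopologicalSpace.isSeparable_range (continuous_Op k p.1 p.2.1.1 p.2.2.1)).mono ?_
    rintro _ ⟨h, m, s, t, hs, ht, -, rfl⟩
    exact Set.mem_iUnion.2 ⟨(m, ⟨s, hs⟩, ⟨t, ht⟩), h, rfl⟩
  have h2 : TopologicalSpace.IsSeparable (⋃ k, (Ak k : Set (H →L[ℂ] H))) :=
    TopologicalSpace.isSeparable_iUnion.2 fun k => (h1 k).span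
  refine (h2.closure.mono fun T hT => ?_).separableSpace
  refine Metric.mem_closure_iff.2 fun ε hε => ?_
  obtain ⟨k, T', h3, h4⟩ := approx hT hε
  exact ⟨T', Set.mem_iUnion.2 ⟨k, h3⟩, by rwa [dist_eq_norm]⟩

end Pool.Agent.Lib.MP_f09365_an.M
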