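import Pool.Agent.Lib.MP_f09365_an.M.Stmt

/-! The construction of the algebra. -/

open scoped Classical

noncomputable section

namespace Pool.Agent.Lib.MP_f09365_an.M

/-- The iterated commutator word. -/
def cw {G : Type*} [Group G] (w : G) (x : ℕ → G) : ℕ → G
  | 0 => w
  | m + 1 => (x m)⁻¹ * cw w x m * x m * (cw w x m)⁻¹

/-- The closed unit disc. -/
abbrev D : Type := Metric.closedBall (0 : ℂ) 1

/-- The off-diagonal entry of a block. -/
def bt (α : ℂ) : ℝ := √(1 - ‖α‖ ^ 2)

/-- Join coordinates. -/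
def Sv (α : ℕ → ℂ) (a : ℂ) : ℕ → ℤ → ℂ
  | 0 => Pi.single 0 a
  | m + 1 => Pi.single ((m : ℤ) + 1) (α m) + (bt (α m) : ℂ) • Sv α a m

/-- The unit sphere of real dimension twice the size of `W`. -/
abbrev Sp (W : Type) [Fintype W] : Type := {y : Option (W × Bool) → ℝ // ∑ c, y c ^ 2 = 1}

/-- The antipode. -/
def Sp.neg {W : Type} [Fintype W] (y : Sp W) : Sp W := ⟨-y.1, by simpa using y.2⟩

/-- A base point. -/
def Sp.pole (W : Type) [Fintype W] : Sp W :=
  ⟨Pi.single none 1, by simp [Fintype.sum_option]⟩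

instance Sp.compactSpace (W : Type) [Fintype W] : CompactSpace (Sp W) := by
  have key : IsCompact {y : Option (W × Bool) → ℝ | ∑ c, y c ^ 2 = 1} := by
    refine (isCompact_univ_pi fun _ => isCompact_Icc (a := (-1 : ℝ)) (b := 1)).of_isClosed_subset
      (isClosed_eq (by fun_prop) continuous_const) fun y hy c _ => ?_
    have h : y c ^ 2 ≤ ∑ c, y c ^ 2 :=
      Finset.single_le_sum (f := fun c => y c ^ 2) (fun _ _ => sq_nonneg _) (Finset.mem_univ c)
    rw [show ∑ c, y c ^ 2 = 1 from hy] at h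
    exact abs_le.1 ((sq_le_one_iff_abs_le_one _).1 h)
  exact isCompact_iff_compactSpace.1 key

/-- The period at level `l`. -/
abbrev nn (l : ℕ) : ℕ := 2 * l + 2

/-- Fibre indices. -/
@[ext] structure R : Type where
  /-- The entry at each level. -/
  f : (l : ℕ) → Option (ZMod (nn l))
  fin : ∃ N, ∀ l, N ≤ l → f l = none

/-- The untwisted fibre index. -/
def bot : R := ⟨fun _ => none, 0, fun _ _ => rfl⟩

/-- `s` is an index of level `k`. -/
def Low (k : ℕ) (s : R) : Prop := ∀ l, k ≤ l → s.f l = none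

/-- `l` is the largest level used by `s`. -/
def IsTop (s : R) (l : ℕ) : Prop := s.f l ≠ none ∧ Low (l + 1) s

instance finite_low (k : ℕ) : Finite {s : R // Low k s} := by
  refine Finite.of_injective (fun s => fun l : Fin k => s.1.f l) fun s t h => ?_
  refine Subtype.ext (R.ext (funext fun l => ?_))
  by_cases hl : l < k
  · exact congrFun h ⟨l, hl⟩
  · rw [s.2 l (not_lt.1 hl), t.2 l (not_lt.1 hl)]

/-- The indices of level `k`, as a finite set. -/
def Rk (k : ℕ) : Finset R :=
  (show {s : R | Low k s}.Finite from Set.finite_coe_iff.1 (finite_low k)).toFinset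

@[simp] lemma mem_Rk {k : ℕ} {s : R} : s ∈ Rk k ↔ Low k s := by simp [Rk]

/-- The indices with top level `l`. -/
abbrev V (l : ℕ) : Type := {s : R // IsTop s l}

instance finite_V (l : ℕ) : Finite (V l) :=
  Finite.of_injective (fun s : V l => (⟨s.1, s.2.2⟩ : {s : R // Low (l + 1) s}))
    fun _ _ h => Subtype.ext (congrArg (fun u : {s : R // Low (l + 1) s} => u.1) h)

instance fintype_V (l : ℕ) : Fintype (V l) := Fintype.ofFinite _

/-- The part of `s` below level `k`. -/
def low (k : ℕ) (s : R) : R :=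
  ⟨fun l => if l < k then s.f l else none, k, fun _ hl => if_neg (not_lt.2 hl)⟩

/-- Replace the part of `s` below level `k` by that of `t`. -/
def put (k : ℕ) (s t : R) : R :=
  ⟨fun l => if l < k then t.f l else s.f l, by
    obtain ⟨N, hN⟩ := s.fin
    exact ⟨max N k, fun l hl => by
      simp only [if_neg (not_lt.2 (le_of_max_le_right hl)), hN l (le_of_max_le_left hl)]⟩⟩

/-- Change the entry of `s` at level `l`. -/
def upd (s : R) (l : ℕ) (o : Option (ZMod (nn l))) : R :=
  ⟨Function.update s.f l o, by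
    obtain ⟨N, hN⟩ := s.fin
    exact ⟨max N (l + 1), fun l' hl => by
      rw [Function.update_of_ne (by have := le_of_max_le_right hl; omega),
        hN l' (le_of_max_le_left hl)]⟩⟩

/-- The least level `≥ k` used by `s`. -/
def hi (k : ℕ) (s : R) : Option ℕ :=
  if h : ∃ l, k ≤ l ∧ s.f l ≠ none then some (Nat.find h) else none

/-- Letters: bond parameter, phase, sphere parameters. -/
abbrev Lt : Type := D × Circle × ((l : ℕ) → Sp (V l))

/-- Configurations. -/
abbrev X : Type := ZMod 2 × (ℤ → Lt)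

/-- The parameter of the bond from `c` to `c + 1`. -/
def al (x : X) (c : ℤ) : ℂ := (x.2 c).1

/-- The phase at site `c`. -/
def ph (x : X) (c : ℤ) : ℂ := (x.2 c).2.1

/-- The sphere parameter at site `c` and level `l`. -/
def et (x : X) (c : ℤ) (l : ℕ) : Sp (V l) := (x.2 c).2.2 l

/-- The shift. -/
def sh (m : ℤ) (x : X) : X := (x.1 + (m : ZMod 2), fun c => x.2 (c + m))

lemma continuous_sh (m : ℤ) : Continuous (sh m) := by
  unfold sh; fun_prop

/-- The shift as a continuous map. -/
def shC (m : ℤ) : C(X, X) := ⟨sh m, continuous_sh m⟩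

/-- The antipode on the sphere at site `c` and level `l`. -/
def flp (c : ℤ) (l : ℕ) (x : X) : X :=
  (x.1, fun c' => ((x.2 c').1, (x.2 c').2.1,
    fun l' => if c' = c ∧ l' = l then Sp.neg ((x.2 c').2.2 l') else (x.2 c').2.2 l'))

/-- The sign of the basis vector at site `a` with fibre index `s` under `flp c l`. -/
def sg (c : ℤ) (l : ℕ) (a : ℤ) (s : R) : ℝ := if c = a ∧ IsTop s l then -1 else 1

/-- The bond `c` lies between the sites `a` and `b`. -/
def Btw (a b c : ℤ) : Prop := min a b ≤ c ∧ c < max a b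

instance : Nonempty X := ⟨(0, fun _ => (⟨0, by simp⟩, 1, fun l => Sp.pole (V l)))⟩

/-- The periodic point of level `l`. -/
def zz (l : ℕ) : X :=
  ((TopologicalSpace.denseSeq X (Nat.unpair l).1).1, fun c =>
    (TopologicalSpace.denseSeq X (Nat.unpair l).1).2 ((c + (l + 1)) % (nn l : ℤ) - (l + 1)))

/-- The orbit of the periodic point. -/
def shz (l : ℕ) (w : ZMod (nn l)) : X := sh (w.val : ℤ) (zz l)

/-- The index set of the basis. -/
abbrev I : Type := X × ℤ × R

/-- The Hilbert space. -/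
abbrev H : Type := lp (fun _ : I => ℂ) 2

/-- Translation at level `k`. -/
def act (k : ℕ) (m : ℤ) (i : I) : I :=
  match hi k i.2.2 with
  | none => (i.1, i.2.1 + m, i.2.2)
  | some l => (i.1, i.2.1, upd i.2.2 l ((i.2.2.f l).map fun w => w + (m : ZMod (nn l))))

/-- The configuration seen from `i` at level `k`. -/
def pt (k : ℕ) (i : I) : X :=
  match hi k i.2.2 with
  | none => sh i.2.1 i.1
  | some l => shz l ((i.2.2.f l).getD 0)

/-- The index read by an elementary operator. -/
def mv (k : ℕ) (m : ℤ) (t : R) (i : I) : I := act k m (i.1, i.2.1, put k i.2.2 t)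

/-- The weighted pull-back operator, when it exists. -/
def opOf (ω : I → ℂ) (θ : I → I) : H →L[ℂ] H :=
  if h : ∃ T : H →L[ℂ] H, ∀ ξ i, T ξ i = ω i * ξ (θ i) then h.choose else 0

/-- Elementary operators. -/
def Op (k : ℕ) (h : C(X, ℂ)) (m : ℤ) (s t : R) : H →L[ℂ] H :=
  opOf (fun i => if low k i.2.2 = s then h (pt k i) else 0) (mv k m t)

/-- Admissible coefficient functions. -/
def Adm (h : C(X, ℂ)) (m : ℤ) (s t : R) : Prop :=
  (∀ c l x, h (flp c l x) = (sg c l 0 s : ℂ) * (sg c l m t : ℂ) * h x) ∧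
    ∀ x c, Btw 0 m c → ‖al x c‖ = 1 → h x = 0

/-- Generators of level `k`. -/
def Gen (k : ℕ) : Set (H →L[ℂ] H) :=
  {T | ∃ h m s t, Low k s ∧ Low k t ∧ Adm h m s t ∧ T = Op k h m s t}

/-- The algebra of level `k`. -/
def Ak (k : ℕ) : Submodule ℂ (H →L[ℂ] H) := Submodule.span ℂ (Gen k)

/-- The algebra. -/
def AA : StarSubalgebra ℂ (H →L[ℂ] H) :=
  (StarAlgebra.adjoin ℂ (⋃ k, Gen k)).topologicalClosure

instance : IsClosed (AA : Set (H →L[ℂ] H)) := StarSubalgebra.isClosed_topologicalClosure _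

/-- Matrix entries. -/
def E (T : H →L[ℂ] H) (i i' : I) : ℂ := T (lp.single 2 i' 1) i

/-- The phase letter on functions on the chain. -/
def wl (x : X) : Module.End ℂ (ℤ → ℂ) where
  toFun ξ c := ph x c * ξ c
  map_add' _ _ := by ext; simp [mul_add]
  map_smul' _ _ := by ext; simp; ring

/-- The block letter of colour `e` on functions on the chain. -/
def ul (x : X) (e : ZMod 2) : Module.End ℂ (ℤ → ℂ) where
  toFun ξ c := if x.1 + (c : ZMod 2) = e then
      (starRingEnd ℂ) (al x c) * ξ c + (bt (al x c) : ℂ) * ξ (c + 1)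
    else al x (c - 1) * ξ c - (bt (al x (c - 1)) : ℂ) * ξ (c - 1)
  map_add' _ _ := by ext; simp only [Pi.add_apply]; split_ifs <;> ring
  map_smul' _ _ := by
    ext; simp only [Pi.smul_apply, smul_eq_mul, RingHom.id_apply]; split_ifs <;> ring

/-- The cut to the sites `≤ m`. -/
def cut (m : ℤ) : Module.End ℂ (ℤ → ℂ) where
  toFun ξ c := if c ≤ m then ξ c else 0
  map_add' _ _ := by ext; simp only [Pi.add_apply]; split_ifs <;> simp
  map_smul' _ _ := by
    ext; simp only [Pi.smul_apply, smul_eq_mul, RingHom.id_apply]; split_ifs <;> simp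

/-- The straightening operator. -/
def gam (x : X) : ℕ → Module.End ℂ (ℤ → ℂ)
  | 0 => 1
  | m + 1 => gam x m * (ul x (m : ZMod 2) * cut ((m : ℤ) + 1) + (1 - cut ((m : ℤ) + 1)))

/-- `T` acts on the untwisted components over `x` as `t`. -/
def Rel (x : X) (T : H →L[ℂ] H) (t : Module.End ℂ (ℤ → ℂ)) : Prop :=
  ∀ (ξ : H) (c : ℤ), T ξ (x, c, bot) = t (fun c' => ξ (x, c', bot)) c

end Pool.Agent.Lib.MP_f09365_an.M
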