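import Pool.Agent.Lib.MP_f09365_an.M.Defs
import Pool.Agent.Lib.MP_f09365_an.N.Thm1

open scoped Classical
open Topology Filter

noncomputable section

namespace Pool.Agent.Lib.MP_f09365_an.M

universe u

lemma cw_eq_word {G : Type*} [Group G] (w : G) (x : ℕ → G) (m : ℕ) :
    cw w x m = N.word w x m := by
  induction m with
  | zero => rfl
  | succ m ih => simp only [cw, N.word, ih]

/-- Section 1 of the paper. -/
theorem engel {A : Type} [CStarAlgebra A] (hA : WeakASH.{u} A) (W : Aˣ) (U : ZMod 2 → Aˣ) :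
    ∃ (j : ℕ) (γ : ℝ → A), Continuous γ ∧ (∀ t, IsUnit (γ t)) ∧
      γ 0 = (cw W (fun n => U n) j : Aˣ) ∧ γ 1 = 1 := by
  obtain ⟨B, _, φ, ι, hs, hc, hd⟩ := hA
  obtain ⟨m, hm⟩ := N.thm1 ι (fun n => by rintro _ ⟨b, rfl⟩; exact ⟨φ n b, hc n b⟩) hd
    (fun n => by
      obtain ⟨N, hN⟩ := hs n
      refine ⟨N, fun H _ _ _ π h0 hπ => hN H π ⟨?_, hπ⟩⟩
      by_contra h
      push Not at h
      exact h0 (NonUnitalStarAlgHom.ext h)) W (U 0) (U 1)
  have e : (fun n : ℕ => U n) = fun i => if i % 2 = 0 then U 0 else U 1 := by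
    ext1 i
    rw [← ZMod.natCast_mod i 2]
    rcases Nat.mod_two_eq_zero_or_one i with h | h <;> simp [h]
  obtain ⟨p⟩ := hm m le_rfl
  refine ⟨m, fun t => (p.extend t : Aˣ), Units.continuous_val.comp p.continuous_extend,
    fun t => Units.isUnit _, ?_, ?_⟩
  · simp only [Path.extend_zero, e, cw_eq_word]
  · simp only [Path.extend_one, Units.val_one]

end Pool.Agent.Lib.MP_f09365_an.M
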