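import Pool.Agent.Lib.MP_f09365_an.M.Defs

open scoped Classical
open Topology Filter

noncomputable section

namespace Pool.Agent.Lib.MP_f09365_an.M

@[simp] lemma sh_zero (x : X) : sh 0 x = x := by
  simp [sh]
lemma sh_sh (m n : ℤ) (x : X) : sh m (sh n x) = sh (m + n) x := by
  refine Prod.ext ?_ (funext fun c => ?_)
  · simp only [sh, Int.cast_add]; ring
  · simp only [sh, add_assoc]
@[simp] lemma shC_apply (m : ℤ) (x : X) : shC m x = sh m x := rfl
@[simp] lemma al_sh (m : ℤ) (x : X) (c : ℤ) : al (sh m x) c = al x (c + m) := rfl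
@[simp] lemma ph_sh (m : ℤ) (x : X) (c : ℤ) : ph (sh m x) c = ph x (c + m) := rfl
@[simp] lemma et_sh (m : ℤ) (x : X) (c : ℤ) (l : ℕ) : et (sh m x) c l = et x (c + m) l := rfl
@[simp] lemma fst_sh (m : ℤ) (x : X) : (sh m x).1 = x.1 + (m : ZMod 2) := rfl
@[simp] lemma al_flp (c : ℤ) (l : ℕ) (x : X) (c' : ℤ) : al (flp c l x) c' = al x c' := rfl
@[simp] lemma ph_flp (c : ℤ) (l : ℕ) (x : X) (c' : ℤ) : ph (flp c l x) c' = ph x c' := rfl
@[simp] lemma fst_flp (c : ℤ) (l : ℕ) (x : X) : (flp c l x).1 = x.1 := rfl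
lemma et_flp (c : ℤ) (l : ℕ) (x : X) (c' : ℤ) (l' : ℕ) :
    et (flp c l x) c' l' = if c' = c ∧ l' = l then (et x c' l').neg else et x c' l' := rfl
lemma sh_flp (m c : ℤ) (l : ℕ) (x : X) : sh m (flp c l x) = flp (c - m) l (sh m x) := by
  refine Prod.ext rfl (funext fun c' => ?_)
  simp only [sh, flp, eq_sub_iff_add_eq]
lemma norm_al_le (x : X) (c : ℤ) : ‖al x c‖ ≤ 1 := mem_closedBall_zero_iff.1 (x.2 c).1.2
lemma norm_ph (x : X) (c : ℤ) : ‖ph x c‖ = 1 := Circle.norm_coe _
lemma continuous_al (c : ℤ) : Continuous fun x => al x c := by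
  unfold al; fun_prop
lemma continuous_ph (c : ℤ) : Continuous fun x => ph x c := by
  unfold ph
  exact continuous_subtype_val.comp
    (by fun_prop : Continuous fun x : X => (x.2 c).2.1)
lemma continuous_et (c : ℤ) (l : ℕ) : Continuous fun x => et x c l := by
  unfold et; fun_prop
lemma continuous_bt : Continuous bt := by
  unfold bt; fun_prop
lemma bt_nonneg (α : ℂ) : 0 ≤ bt α := Real.sqrt_nonneg _
lemma bt_le_one (α : ℂ) : bt α ≤ 1 := by
  unfold bt
  exact Real.sqrt_le_one.2 (by nlinarith [sq_nonneg ‖α‖])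
lemma bt_sq {α : ℂ} (h : ‖α‖ ≤ 1) : bt α ^ 2 + ‖α‖ ^ 2 = 1 := by
  unfold bt
  rw [Real.sq_sqrt (by nlinarith [norm_nonneg α])]; ring
lemma bt_eq_zero {α : ℂ} (h : ‖α‖ ≤ 1) : bt α = 0 ↔ ‖α‖ = 1 := by
  have h2 := bt_sq h
  constructor
  · intro h0
    rw [h0] at h2
    nlinarith [norm_nonneg α]
  · intro h1
    simp [bt, h1]

lemma sg_mul_self (c : ℤ) (l : ℕ) (a : ℤ) (s : R) : sg c l a s * sg c l a s = 1 := by
  unfold sg; split_ifs <;> norm_num
lemma sg_sub (c : ℤ) (l : ℕ) (a m : ℤ) (s : R) : sg (c - m) l a s = sg c l (a + m) s := by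
  simp only [sg, sub_eq_iff_eq_add]
@[simp] lemma sg_bot (c : ℤ) (l : ℕ) (a : ℤ) : sg c l a bot = 1 := by
  simp [sg, IsTop, bot]
lemma IsTop.unique {s : R} {l l' : ℕ} (h : IsTop s l) (h' : IsTop s l') : l = l' := by
  rcases lt_trichotomy l l' with h1 | h1 | h1
  · exact absurd (h.2 l' h1) h'.1
  · exact h1
  · exact absurd (h'.2 l h1) h.1
lemma eq_bot_or_isTop (s : R) : s = bot ∨ ∃ l, IsTop s l := by
  obtain ⟨N, hN⟩ := s.fin
  induction N with
  | zero => exact Or.inl (R.ext (funext fun l => hN l (Nat.zero_le l)))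
  | succ N ih =>
    by_cases h : s.f N = none
    · refine ih fun l hl => ?_
      rcases hl.eq_or_lt with rfl | hl
      · exact h
      · exact hN l hl
    · exact Or.inr ⟨N, h, hN⟩
lemma IsTop.lt {s : R} {l k : ℕ} (h : IsTop s l) (hk : Low k s) : l < k := by
  by_contra hl
  exact h.1 (hk l (not_lt.1 hl))
lemma Low.mono {k k' : ℕ} {s : R} (h : Low k s) (hk : k ≤ k') : Low k' s := fun l hl => h l (hk.trans hl)
lemma low_bot (k : ℕ) : Low k bot := fun _ _ => rfl
lemma low_zero_iff {s : R} : Low 0 s ↔ s = bot := ⟨fun h => R.ext (funext fun l => h l (Nat.zero_le l)), fun h => h ▸ low_bot 0⟩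
lemma exists_low (s : R) : ∃ k, Low k s := s.fin
lemma isTop_upd {k l : ℕ} {s : R} (hs : Low k s) (hl : k ≤ l) (w : ZMod (nn l)) :
    IsTop (upd s l (some w)) l := by
  refine ⟨by simp [upd], fun l' hl' => ?_⟩
  have : l' ≠ l := by omega
  simp only [upd, Function.update_of_ne this]
  exact hs l' (by omega)

lemma ix_sh_zz_congr (l : ℕ) {a b : ℤ} (h : a ≡ b [ZMOD (nn l : ℤ)]) : sh a (zz l) = sh b (zz l) := by
  refine Prod.ext ?_ (funext fun c => ?_)
  · have h2 : a ≡ b [ZMOD ((2 : ℕ) : ℤ)] :=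
      h.of_dvd ⟨(l : ℤ) + 1, by simp only [nn]; push_cast; ring⟩
    simp only [sh, (ZMod.intCast_eq_intCast_iff a b 2).2 h2]
  · have h3 : (c + a + (l + 1)) % (nn l : ℤ) = (c + b + (l + 1)) % (nn l : ℤ) :=
      (h.add_left c).add_right _
    simp only [sh, zz, h3]

lemma shz_zero (l : ℕ) : shz l 0 = zz l := by
  simp [shz]
lemma shz_add (l : ℕ) (w : ZMod (nn l)) (m : ℤ) :
    shz l (w + (m : ZMod (nn l))) = sh m (shz l w) := by
  rw [shz, shz, sh_sh]
  refine ix_sh_zz_congr l ((ZMod.intCast_eq_intCast_iff _ _ (nn l)).1 ?_)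
  simp [add_comm]
lemma zz_dense (x : X) {O : Set X} (hO : O ∈ 𝓝 x) (k : ℕ) : ∃ l, k ≤ l ∧ zz l ∈ O := by
  obtain ⟨n, hn⟩ := (TopologicalSpace.denseRange_denseSeq X).mem_nhds (interior_mem_nhds.2 hO)
  have hlim : Tendsto (fun j => zz (Nat.pair n j)) atTop (𝓝 (TopologicalSpace.denseSeq X n)) := by
    refine (Prod.tendsto_iff _ _).2 ⟨?_, tendsto_pi_nhds.2 fun c => ?_⟩
    · simp only [zz, Nat.unpair_pair]
      exact tendsto_const_nhds
    · refine tendsto_const_nhds.congr' ?_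
      filter_upwards [eventually_ge_atTop c.natAbs] with j hj
      have h1 := Nat.right_le_pair n j
      have h2 : (c + ((Nat.pair n j : ℕ) + 1)) % (nn (Nat.pair n j) : ℤ)
          = c + ((Nat.pair n j : ℕ) + 1) :=
        Int.emod_eq_of_lt (by omega) (by simp only [nn]; omega)
      simp only [zz, Nat.unpair_pair, h2, add_sub_cancel_right]
  obtain ⟨j, hj1, hj2⟩ := ((hlim.eventually (isOpen_interior.mem_nhds hn)).and
    (eventually_ge_atTop k)).exists
  exact ⟨Nat.pair n j, hj2.trans (Nat.right_le_pair n j), interior_subset hj1⟩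

lemma low_low (k : ℕ) (s : R) : Low k (low k s) := fun _ hl => if_neg (not_lt.2 hl)
lemma low_eq_self {k : ℕ} {s : R} (h : Low k s) : low k s = s := by
  refine R.ext (funext fun l => ?_)
  simp only [low]
  split_ifs with hl
  · rfl
  · exact (h l (not_lt.1 hl)).symm
lemma low_put (k : ℕ) (s t : R) : low k (put k s t) = low k t := by
  refine R.ext (funext fun l => ?_)
  simp only [low, put]
  split_ifs <;> rfl
lemma put_low (k : ℕ) (s : R) : put k s (low k s) = s := by
  refine R.ext (funext fun l => ?_)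
  simp only [low, put]
  split_ifs <;> rfl
lemma put_put (k : ℕ) (s t r : R) : put k (put k s t) r = put k s r := by
  refine R.ext (funext fun l => ?_)
  simp only [put]
  split_ifs <;> rfl

lemma ix_put_f_of_le {k l : ℕ} (h : k ≤ l) (s t : R) : (put k s t).f l = s.f l :=
  if_neg (not_lt.2 h)
lemma ix_put_f_of_lt {k l : ℕ} (h : l < k) (s t : R) : (put k s t).f l = t.f l := if_pos h
lemma ix_upd_f_self (s : R) (l : ℕ) (o : Option (ZMod (nn l))) : (upd s l o).f l = o := by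
  simp [upd]
lemma ix_upd_f_ne (s : R) {l l' : ℕ} (h : l' ≠ l) (o : Option (ZMod (nn l))) :
    (upd s l o).f l' = s.f l' := by
  simp only [upd, Function.update_of_ne h]

lemma ix_hi_eq_none {k : ℕ} {s : R} : hi k s = none ↔ Low k s := by
  unfold hi
  split_ifs with h
  · obtain ⟨l, h1, h2⟩ := h
    exact ⟨fun h => (by cases h), fun h => absurd (h l h1) h2⟩
  · refine ⟨fun _ l hl => ?_, fun _ => rfl⟩
    by_contra h2
    exact h ⟨l, hl, h2⟩

lemma ix_hi_eq_some {k l : ℕ} {s : R} :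
    hi k s = some l ↔ k ≤ l ∧ s.f l ≠ none ∧ ∀ l', k ≤ l' → l' < l → s.f l' = none := by
  unfold hi
  split_ifs with h
  · rw [Option.some.injEq, Nat.find_eq_iff]
    refine ⟨fun ⟨h1, h2⟩ => ⟨h1.1, h1.2, fun l' a b => ?_⟩,
      fun ⟨h1, h2, h3⟩ => ⟨⟨h1, h2⟩, fun l' a b => b.2 (h3 l' b.1 a)⟩⟩
    by_contra c
    exact h2 l' b ⟨a, c⟩
  · exact ⟨fun h => (by cases h), fun ⟨h1, h2, _⟩ => absurd ⟨l, h1, h2⟩ h⟩

lemma ix_hi_congr {k : ℕ} {s s' : R} (h : ∀ l, k ≤ l → (s.f l = none ↔ s'.f l = none)) :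
    hi k s = hi k s' := by
  cases h1 : hi k s with
  | none => exact (ix_hi_eq_none.2 fun l hl => (h l hl).1 (ix_hi_eq_none.1 h1 l hl)).symm
  | some l =>
    obtain ⟨a, b, c⟩ := ix_hi_eq_some.1 h1
    exact (ix_hi_eq_some.2 ⟨a, fun e => b ((h l a).2 e), fun l' d e => (h l' d).1 (c l' d e)⟩).symm

lemma ix_hi_put (k : ℕ) (s t : R) : hi k (put k s t) = hi k s :=
  ix_hi_congr fun l hl => by rw [ix_put_f_of_le hl]

lemma ix_mv_none {k : ℕ} {s : R} (h : hi k s = none) (m : ℤ) (t : R) (x : X) (a : ℤ) :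
    mv k m t (x, a, s) = (x, a + m, put k s t) := by
  simp only [mv, act, ix_hi_put, h]

lemma ix_mv_some {k l : ℕ} {s : R} (h : hi k s = some l) (m : ℤ) (t : R) (x : X) (a : ℤ) :
    mv k m t (x, a, s)
      = (x, a, upd (put k s t) l ((s.f l).map fun w => w + (m : ZMod (nn l)))) := by
  simp only [mv, act, ix_hi_put, h, ix_put_f_of_le (ix_hi_eq_some.1 h).1]

lemma ix_pt_none {k : ℕ} {s : R} (h : hi k s = none) (x : X) (a : ℤ) :
    pt k (x, a, s) = sh a x := by
  simp only [pt, h]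

lemma ix_pt_some {k l : ℕ} {s : R} (h : hi k s = some l) (x : X) (a : ℤ) :
    pt k (x, a, s) = shz l ((s.f l).getD 0) := by
  simp only [pt, h]

lemma ix_upd_map_none_iff {k l : ℕ} (hl : k ≤ l) (s t : R) (g : ZMod (nn l) → ZMod (nn l))
    (l' : ℕ) (hl' : k ≤ l') : (upd (put k s t) l ((s.f l).map g)).f l' = none ↔ s.f l' = none := by
  by_cases e : l' = l
  · subst e
    rw [ix_upd_f_self, Option.map_eq_none_iff]
  · rw [ix_upd_f_ne _ e, ix_put_f_of_le hl']

lemma ix_mv_zero (k : ℕ) (t : R) (x : X) (a : ℤ) (s : R) :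
    mv k 0 t (x, a, s) = (x, a, put k s t) := by
  cases h : hi k s with
  | none => rw [ix_mv_none h, add_zero]
  | some l =>
    rw [ix_mv_some h]
    refine Prod.ext rfl (Prod.ext rfl (R.ext (funext fun l' => ?_)))
    by_cases e : l' = l
    · subst e
      simp [ix_upd_f_self, ix_put_f_of_le (ix_hi_eq_some.1 h).1]
    · exact ix_upd_f_ne _ e _

lemma low_mv (k : ℕ) (m : ℤ) (t : R) (i : I) : low k (mv k m t i).2.2 = low k t := by
  obtain ⟨x, a, s⟩ := i
  cases h : hi k s with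
  | none => rw [ix_mv_none h]; exact low_put k s t
  | some l =>
    rw [ix_mv_some h]
    refine R.ext (funext fun l' => ?_)
    simp only [low]
    split_ifs with hl
    · have := (ix_hi_eq_some.1 h).1
      rw [ix_upd_f_ne _ (by omega), ix_put_f_of_lt hl]
    · rfl
lemma pt_mv (k : ℕ) (m : ℤ) (t : R) (i : I) : pt k (mv k m t i) = sh m (pt k i) := by
  obtain ⟨x, a, s⟩ := i
  cases h : hi k s with
  | none => rw [ix_mv_none h, ix_pt_none h, ix_pt_none ((ix_hi_put k s t).trans h), sh_sh, add_comm]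
  | some l =>
    obtain ⟨h1, h2, -⟩ := ix_hi_eq_some.1 h
    rw [ix_mv_some h, ix_pt_some h, ix_pt_some ((ix_hi_congr (ix_upd_map_none_iff h1 s t _)).trans h), ix_upd_f_self]
    obtain ⟨w, hw⟩ := Option.ne_none_iff_exists'.1 h2
    simp only [hw, Option.map_some, Option.getD_some, shz_add]
lemma mv_mv (k : ℕ) (m m' : ℤ) (t r : R) (i : I) :
    mv k m' r (mv k m t i) = mv k (m + m') r i := by
  obtain ⟨x, a, s⟩ := i
  cases h : hi k s with
  | none => rw [ix_mv_none h, ix_mv_none h, ix_mv_none ((ix_hi_put k s t).trans h), put_put, add_assoc]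
  | some l =>
    obtain ⟨h1, -, -⟩ := ix_hi_eq_some.1 h
    rw [ix_mv_some h, ix_mv_some h, ix_mv_some ((ix_hi_congr (ix_upd_map_none_iff h1 s t _)).trans h), ix_upd_f_self]
    refine Prod.ext rfl (Prod.ext rfl (R.ext (funext fun l' => ?_)))
    by_cases e : l' = l
    · subst e
      simp only [ix_upd_f_self, Option.map_map]
      congr 1
      funext w
      simp [add_assoc]
    · simp only [ix_upd_f_ne _ e]
      by_cases hl : l' < k
      · rw [ix_put_f_of_lt hl, ix_put_f_of_lt hl]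
      · rw [ix_put_f_of_le (not_lt.1 hl), ix_put_f_of_le (not_lt.1 hl), ix_upd_f_ne _ e,
          ix_put_f_of_le (not_lt.1 hl)]
lemma mv_zero (k : ℕ) (i : I) : mv k 0 (low k i.2.2) i = i := by
  obtain ⟨x, a, s⟩ := i
  rw [ix_mv_zero, put_low]
lemma fst_mv (k : ℕ) (m : ℤ) (t : R) (i : I) : (mv k m t i).1 = i.1 := by
  obtain ⟨x, a, s⟩ := i
  cases h : hi k s with
  | none => rw [ix_mv_none h]
  | some l => rw [ix_mv_some h]

/-- Rows without a high part. -/
lemma pt_of_low {k : ℕ} {s : R} (h : Low k s) (x : X) (a : ℤ) : pt k (x, a, s) = sh a x := ix_pt_none (ix_hi_eq_none.2 h) x a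
lemma mv_of_low {k : ℕ} {s t : R} (h : Low k s) (ht : Low k t) (m : ℤ) (x : X) (a : ℤ) :
    mv k m t (x, a, s) = (x, a + m, t) := by
  rw [ix_mv_none (ix_hi_eq_none.2 h)]
  refine Prod.ext rfl (Prod.ext rfl (R.ext (funext fun l => ?_)))
  by_cases hl : l < k
  · exact ix_put_f_of_lt hl s t
  · exact ((ix_put_f_of_le (not_lt.1 hl) s t).trans (h l (not_lt.1 hl))).trans
      (ht l (not_lt.1 hl)).symm

/-- Rows with a high part. -/
lemma of_not_low {k : ℕ} {s : R} (h : ¬Low k s) (m : ℤ) (t : R) :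
    ∃ (s' : R) (z : X), ¬Low k s' ∧ (∀ l, IsTop s' l ↔ IsTop s l) ∧
      ∀ (x : X) (a : ℤ), mv k m t (x, a, s) = (x, a, s') ∧ pt k (x, a, s) = z := by
  cases h0 : hi k s with
  | none => exact absurd (ix_hi_eq_none.1 h0) h
  | some l =>
    obtain ⟨h1, h2, -⟩ := ix_hi_eq_some.1 h0
    have key := ix_upd_map_none_iff h1 s t fun w => w + (m : ZMod (nn l))
    refine ⟨_, _, fun e => h2 ((key l h1).1 (e l h1)), fun l' => ?_,
      fun x a => ⟨ix_mv_some h0 m t x a, ix_pt_some h0 x a⟩⟩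
    by_cases hl : k ≤ l'
    · exact ⟨fun e => ⟨fun c => e.1 ((key l' hl).2 c),
          fun j hj => (key j (by omega)).1 (e.2 j hj)⟩,
        fun e => ⟨fun c => e.1 ((key l' hl).1 c), fun j hj => (key j (by omega)).2 (e.2 j hj)⟩⟩
    · exact ⟨fun e => absurd ((key l h1).1 (e.2 l (by omega))) h2,
        fun e => absurd (e.2 l (by omega)) h2⟩

/-- Rows whose least high level is `l`: the part below `l + 1` is `upd s l (some w)`. -/
lemma of_low_upd {k l : ℕ} {s t : R} (hs : Low k s) (ht : Low k t) (hl : k ≤ l)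
    (w : ZMod (nn l)) (m : ℤ) (i : I) (hi : low (l + 1) i.2.2 = upd s l (some w)) :
    low k i.2.2 = s ∧ pt k i = shz l w ∧
      mv k m t i = mv (l + 1) 0 (upd t l (some (w + (m : ZMod (nn l))))) i := by
  obtain ⟨x, a, r⟩ := i
  have e0 : ∀ j, j < l + 1 → r.f j = (upd s l (some w)).f j := fun j hj => by
    have := congrArg (fun u : R => u.f j) hi
    simpa only [low, if_pos hj] using this
  have e1 : r.f l = some w := (e0 l (by omega)).trans (ix_upd_f_self _ _ _)
  have e2 : ∀ j, j < l → r.f j = s.f j := fun j hj =>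
    (e0 j (by omega)).trans (ix_upd_f_ne _ (by omega) _)
  have h0 : M.hi k r = some l :=
    ix_hi_eq_some.2 ⟨hl, by simp [e1], fun j h1 h2 => (e2 j h2).trans (hs j h1)⟩
  refine ⟨R.ext (funext fun j => ?_), ?_, ?_⟩
  · simp only [low]
    split_ifs with hj
    · exact e2 j (by omega)
    · exact (hs j (not_lt.1 hj)).symm
  · rw [ix_pt_some h0, e1, Option.getD_some]
  · rw [ix_mv_some h0, ix_mv_zero, e1, Option.map_some]
    refine Prod.ext rfl (Prod.ext rfl (R.ext (funext fun j => ?_)))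
    show (upd _ _ _).f j = (put _ _ _).f j
    rcases lt_trichotomy j l with hj | rfl | hj
    · rw [ix_upd_f_ne _ hj.ne, ix_put_f_of_lt (show j < l + 1 by omega), ix_upd_f_ne _ hj.ne]
      by_cases hk : j < k
      · exact ix_put_f_of_lt hk _ _
      · rw [ix_put_f_of_le (not_lt.1 hk), e2 j hj, hs j (not_lt.1 hk), ht j (not_lt.1 hk)]
    · rw [ix_upd_f_self, ix_put_f_of_lt (Nat.lt_succ_self _), ix_upd_f_self]
    · rw [ix_upd_f_ne _ hj.ne', ix_put_f_of_le (show l + 1 ≤ j by omega), ix_put_f_of_le (by omega)]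

/-- Rows that do not use level `k`. -/
lemma of_none {k : ℕ} {t : R} (ht : Low k t) (m : ℤ) (i : I) (hi : i.2.2.f k = none) :
    low k i.2.2 = low (k + 1) i.2.2 ∧ pt k i = pt (k + 1) i ∧
      mv k m t i = mv (k + 1) m t i := by
  obtain ⟨x, a, r⟩ := i
  have hr : r.f k = none := hi
  have h0 : M.hi k r = M.hi (k + 1) r := by
    cases h1 : M.hi (k + 1) r with
    | none =>
      refine ix_hi_eq_none.2 fun j hj => ?_
      rcases hj.eq_or_lt with rfl | hj
      · exact hr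
      · exact ix_hi_eq_none.1 h1 j hj
    | some l =>
      obtain ⟨a1, a2, a3⟩ := ix_hi_eq_some.1 h1
      refine ix_hi_eq_some.2 ⟨by omega, a2, fun j hj hj' => ?_⟩
      rcases hj.eq_or_lt with rfl | hj
      · exact hr
      · exact a3 j hj hj'
  have hp : put k r t = put (k + 1) r t := by
    refine R.ext (funext fun j => ?_)
    rcases lt_trichotomy j k with hj | rfl | hj
    · rw [ix_put_f_of_lt hj, ix_put_f_of_lt (by omega)]
    · rw [ix_put_f_of_le le_rfl, ix_put_f_of_lt (Nat.lt_succ_self _), hr, ht j le_rfl]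
    · rw [ix_put_f_of_le hj.le, ix_put_f_of_le (by omega)]
  refine ⟨R.ext (funext fun j => ?_), ?_, ?_⟩
  · simp only [low]
    rcases lt_trichotomy j k with hj | rfl | hj
    · rw [if_pos hj, if_pos (by omega)]
    · rw [if_neg (lt_irrefl _), if_pos (Nat.lt_succ_self _), hr]
    · rw [if_neg (by omega), if_neg (by omega)]
  · cases h1 : M.hi (k + 1) r with
    | none => rw [ix_pt_none h1, ix_pt_none (h0.trans h1)]
    | some l => rw [ix_pt_some h1, ix_pt_some (h0.trans h1)]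
  · cases h1 : M.hi (k + 1) r with
    | none => rw [ix_mv_none h1, ix_mv_none (h0.trans h1), hp]
    | some l => rw [ix_mv_some h1, ix_mv_some (h0.trans h1), hp]

end Pool.Agent.Lib.MP_f09365_an.M
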