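import Pool.Agent.Lib.MP_f09365_an.M.Alg

open scoped Classical
open Topology Filter

noncomputable section

namespace Pool.Agent.Lib.MP_f09365_an.M

/-- `T` acts along every orbit of level zero as `t`. -/
def LeRel (T : H →L[ℂ] H) (t : X → Module.End ℂ (ℤ → ℂ)) : Prop :=
  ∀ (ξ : H) (i : I) (c : ℤ),
    T ξ (mv 0 c bot i) = t (pt 0 i) (fun c' => ξ (mv 0 c' bot i)) c

lemma le_low (s : R) : low 0 s = bot := low_zero_iff.1 (low_low 0 s)

lemma le_mv_zero (i : I) : mv 0 0 bot i = i := by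
  rw [← le_low i.2.2]
  exact mv_zero 0 i

lemma LeRel.mul_eq_one {T T' : H →L[ℂ] H} {t t' : X → Module.End ℂ (ℤ → ℂ)} (h : LeRel T t)
    (h' : LeRel T' t') (e : ∀ x, t x * t' x = 1) : T * T' = 1 := by
  refine op_ext fun ξ i => ?_
  have h1 := h (T' ξ) i 0
  have h2 : (fun c' => T' ξ (mv 0 c' bot i)) = t' (pt 0 i) (fun c' => ξ (mv 0 c' bot i)) :=
    funext fun c' => h' ξ i c'
  rw [h2, ← Module.End.mul_apply, e, Module.End.one_apply, le_mv_zero] at h1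
  exact h1

lemma LeRel.rel {T : H →L[ℂ] H} {t : X → Module.End ℂ (ℤ → ℂ)} (h : LeRel T t) (x : X) :
    Rel x T (t x) := by
  intro ξ c
  have h1 := h ξ (x, 0, bot) c
  simp only [mv_of_low (low_bot 0) (low_bot 0), pt_of_low (low_bot 0), zero_add, sh_zero] at h1
  exact h1

lemma le_Op_apply (h : C(X, ℂ)) (m : ℤ) (ξ : H) (i : I) (c : ℤ) :
    Op 0 h m bot bot ξ (mv 0 c bot i) = h (sh c (pt 0 i)) * ξ (mv 0 (c + m) bot i) := by
  rw [Op_apply, if_pos (le_low _), pt_mv, mv_mv]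

/-- A function defined by the parity. -/
def leIf (e : ZMod 2) (f g : X → ℂ) (hf : Continuous f) (hg : Continuous g) : C(X, ℂ) :=
  ⟨fun x => if x.1 = e then f x else g x, by
    refine Continuous.if ?_ hf hg
    have hc : IsClopen {x : X | x.1 = e} :=
      (isClopen_discrete ({e} : Set (ZMod 2))).preimage continuous_fst
    intro x hx
    rw [hc.frontier_eq] at hx
    exact absurd hx (Set.notMem_empty x)⟩

lemma leIf_apply (e : ZMod 2) (f g : X → ℂ) (hf : Continuous f) (hg : Continuous g) (x : X) :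
    leIf e f g hf hg x = if x.1 = e then f x else g x := rfl

lemma le_cont_bt (c : ℤ) : Continuous fun x : X => (bt (al x c) : ℂ) :=
  Complex.continuous_ofReal.comp (continuous_bt.comp (continuous_al c))

lemma le_cont_conj (c : ℤ) : Continuous fun x : X => (starRingEnd ℂ) (al x c) :=
  Complex.continuous_conj.comp (continuous_al c)

/-- The inverse of the phase letter. -/
def wl' (x : X) : Module.End ℂ (ℤ → ℂ) where
  toFun ξ c := (starRingEnd ℂ) (ph x c) * ξ c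
  map_add' _ _ := by ext; simp [mul_add]
  map_smul' _ _ := by ext; simp; ring

/-- The inverse of the block letter. -/
def ul' (x : X) (e : ZMod 2) : Module.End ℂ (ℤ → ℂ) where
  toFun ξ c := if x.1 + (c : ZMod 2) = e then
      al x c * ξ c - (bt (al x c) : ℂ) * ξ (c + 1)
    else (starRingEnd ℂ) (al x (c - 1)) * ξ c + (bt (al x (c - 1)) : ℂ) * ξ (c - 1)
  map_add' _ _ := by ext; simp only [Pi.add_apply]; split_ifs <;> ring
  map_smul' _ _ := by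
    ext; simp only [Pi.smul_apply, smul_eq_mul, RingHom.id_apply]; split_ifs <;> ring

lemma le_wl (x : X) (ξ : ℤ → ℂ) (c : ℤ) : wl x ξ c = ph x c * ξ c := rfl

lemma le_wl' (x : X) (ξ : ℤ → ℂ) (c : ℤ) : wl' x ξ c = (starRingEnd ℂ) (ph x c) * ξ c := rfl

lemma le_ul (x : X) (e : ZMod 2) (ξ : ℤ → ℂ) (c : ℤ) :
    ul x e ξ c = if x.1 + (c : ZMod 2) = e then
      (starRingEnd ℂ) (al x c) * ξ c + (bt (al x c) : ℂ) * ξ (c + 1)
    else al x (c - 1) * ξ c - (bt (al x (c - 1)) : ℂ) * ξ (c - 1) := rfl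

lemma le_ul' (x : X) (e : ZMod 2) (ξ : ℤ → ℂ) (c : ℤ) :
    ul' x e ξ c = if x.1 + (c : ZMod 2) = e then
      al x c * ξ c - (bt (al x c) : ℂ) * ξ (c + 1)
    else (starRingEnd ℂ) (al x (c - 1)) * ξ c + (bt (al x (c - 1)) : ℂ) * ξ (c - 1) := rfl

lemma le_ph_conj (x : X) (c : ℤ) : ph x c * (starRingEnd ℂ) (ph x c) = 1 := by
  rw [Complex.mul_conj', norm_ph]
  simp

lemma le_al_conj (x : X) (c : ℤ) :
    al x c * (starRingEnd ℂ) (al x c) + (bt (al x c) : ℂ) ^ 2 = 1 := by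
  rw [Complex.mul_conj']
  have := bt_sq (norm_al_le x c)
  exact_mod_cast (by linarith : ‖al x c‖ ^ 2 + bt (al x c) ^ 2 = 1)

lemma le_wl_mul (x : X) : wl x * wl' x = 1 := by
  refine LinearMap.ext fun ξ => funext fun c => ?_
  rw [Module.End.mul_apply, le_wl, le_wl', ← mul_assoc, le_ph_conj, one_mul,
    Module.End.one_apply]

lemma le_wl'_mul (x : X) : wl' x * wl x = 1 := by
  refine LinearMap.ext fun ξ => funext fun c => ?_
  rw [Module.End.mul_apply, le_wl', le_wl, ← mul_assoc, mul_comm _ (ph x c), le_ph_conj, one_mul,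
    Module.End.one_apply]

lemma le_par_succ {p e : ZMod 2} {c : ℤ} (h : p + (c : ZMod 2) = e) :
    ¬(p + ((c + 1 : ℤ) : ZMod 2) = e) := by
  push_cast
  generalize (c : ZMod 2) = d at h ⊢
  revert p e d
  decide

lemma le_par_pred {p e : ZMod 2} {c : ℤ} (h : ¬(p + (c : ZMod 2) = e)) :
    p + ((c - 1 : ℤ) : ZMod 2) = e := by
  push_cast
  generalize (c : ZMod 2) = d at h ⊢
  revert p e d
  decide

lemma le_ul_mul (x : X) (e : ZMod 2) : ul x e * ul' x e = 1 := by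
  refine LinearMap.ext fun ξ => funext fun c => ?_
  rw [Module.End.mul_apply, le_ul, Module.End.one_apply]
  by_cases h : x.1 + (c : ZMod 2) = e
  · rw [if_pos h, le_ul', le_ul', if_pos h, if_neg (le_par_succ h), add_sub_cancel_right]
    linear_combination ξ c * le_al_conj x c
  · rw [if_neg h, le_ul', le_ul', if_neg h, if_pos (le_par_pred h), sub_add_cancel]
    linear_combination ξ c * le_al_conj x (c - 1)

lemma le_ul'_mul (x : X) (e : ZMod 2) : ul' x e * ul x e = 1 := by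
  refine LinearMap.ext fun ξ => funext fun c => ?_
  rw [Module.End.mul_apply, le_ul', Module.End.one_apply]
  by_cases h : x.1 + (c : ZMod 2) = e
  · rw [if_pos h, le_ul, le_ul, if_pos h, if_neg (le_par_succ h), add_sub_cancel_right]
    linear_combination ξ c * le_al_conj x c
  · rw [if_neg h, le_ul, le_ul, if_neg h, if_pos (le_par_pred h), sub_add_cancel]
    linear_combination ξ c * le_al_conj x (c - 1)

lemma le_adm {h : C(X, ℂ)} {m : ℤ} (h1 : ∀ c l x, h (flp c l x) = h x)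
    (h2 : ∀ x c, Btw 0 m c → bt (al x c) = 0 → h x = 0) : Adm h m bot bot :=
  ⟨fun c l x => by simp [h1], fun x c hc hx =>
    h2 x c hc ((bt_eq_zero (norm_al_le x c)).2 hx)⟩

lemma le_btw_zero {c : ℤ} (h : Btw 0 0 c) : False := by
  unfold Btw at h
  omega

lemma le_btw_one {c : ℤ} (h : Btw 0 1 c) : c = 0 := by
  unfold Btw at h
  omega

lemma le_btw_neg {c : ℤ} (h : Btw 0 (-1) c) : c = -1 := by
  unfold Btw at h
  omega

lemma le_mem {h : C(X, ℂ)} {m : ℤ} (a : Adm h m bot bot) : Op 0 h m bot bot ∈ Ak 0 :=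
  Op_mem_Ak (low_bot 0) (low_bot 0) a

lemma le_exists_w : ∃ T ∈ Ak 0, LeRel T wl :=
  ⟨Op 0 ⟨fun x => ph x 0, continuous_ph 0⟩ 0 bot bot,
    le_mem (le_adm (fun _ _ _ => rfl) fun _ _ h => (le_btw_zero h).elim), fun ξ i c => by
      rw [le_Op_apply, le_wl]
      simp⟩

lemma le_exists_w' : ∃ T ∈ Ak 0, LeRel T wl' :=
  ⟨Op 0 ⟨fun x => (starRingEnd ℂ) (ph x 0), Complex.continuous_conj.comp (continuous_ph 0)⟩
      0 bot bot,
    le_mem (le_adm (fun _ _ _ => rfl) fun _ _ h => (le_btw_zero h).elim), fun ξ i c => by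
      rw [le_Op_apply, le_wl']
      simp⟩

lemma le_exists_u (e : ZMod 2) : ∃ T ∈ Ak 0, LeRel T fun x => ul x e := by
  refine ⟨Op 0 (leIf e _ _ (le_cont_conj 0) (continuous_al (-1))) 0 bot bot +
      Op 0 (leIf e _ (fun _ => 0) (le_cont_bt 0) continuous_const) 1 bot bot -
      Op 0 (leIf e (fun _ => 0) _ continuous_const (le_cont_bt (-1))) (-1) bot bot,
    Submodule.sub_mem _ (Submodule.add_mem _
      (le_mem (le_adm (fun _ _ _ => rfl) fun _ _ h => (le_btw_zero h).elim))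
      (le_mem (le_adm (fun _ _ _ => rfl) fun x c h hx => ?_)))
      (le_mem (le_adm (fun _ _ _ => rfl) fun x c h hx => ?_)), fun ξ i c => ?_⟩
  · rw [le_btw_one h] at hx
    simp [leIf_apply, hx]
  · rw [le_btw_neg h] at hx
    simp [leIf_apply, hx]
  · rw [sub_apply', add_apply', le_Op_apply, le_Op_apply, le_Op_apply, le_ul]
    simp only [leIf_apply, fst_sh, al_sh, zero_add, add_zero, neg_add_eq_sub, ← sub_eq_add_neg]
    split_ifs <;> ring

lemma le_exists_u' (e : ZMod 2) : ∃ T ∈ Ak 0, LeRel T fun x => ul' x e := by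
  refine ⟨Op 0 (leIf e _ _ (continuous_al 0) (le_cont_conj (-1))) 0 bot bot -
      Op 0 (leIf e _ (fun _ => 0) (le_cont_bt 0) continuous_const) 1 bot bot +
      Op 0 (leIf e (fun _ => 0) _ continuous_const (le_cont_bt (-1))) (-1) bot bot,
    Submodule.add_mem _ (Submodule.sub_mem _
      (le_mem (le_adm (fun _ _ _ => rfl) fun _ _ h => (le_btw_zero h).elim))
      (le_mem (le_adm (fun _ _ _ => rfl) fun x c h hx => ?_)))
      (le_mem (le_adm (fun _ _ _ => rfl) fun x c h hx => ?_)), fun ξ i c => ?_⟩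
  · rw [le_btw_one h] at hx
    simp [leIf_apply, hx]
  · rw [le_btw_neg h] at hx
    simp [leIf_apply, hx]
  · rw [add_apply', sub_apply', le_Op_apply, le_Op_apply, le_Op_apply, le_ul']
    simp only [leIf_apply, fst_sh, al_sh, zero_add, add_zero, neg_add_eq_sub, ← sub_eq_add_neg]
    split_ifs <;> ring

lemma le_unit {t t' : X → Module.End ℂ (ℤ → ℂ)} (h : ∃ T ∈ Ak 0, LeRel T t)
    (h' : ∃ T ∈ Ak 0, LeRel T t') (e : ∀ x, t x * t' x = 1) (e' : ∀ x, t' x * t x = 1) :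
    ∃ W : AAˣ, ((W : AA) : H →L[ℂ] H) ∈ Ak 0 ∧ (((W⁻¹ : AAˣ) : AA) : H →L[ℂ] H) ∈ Ak 0 ∧
      LeRel ((W : AA) : H →L[ℂ] H) t ∧ LeRel (((W⁻¹ : AAˣ) : AA) : H →L[ℂ] H) t' := by
  obtain ⟨T, hT, r⟩ := h
  obtain ⟨T', hT', r'⟩ := h'
  exact ⟨⟨⟨T, Ak_sub_AA hT⟩, ⟨T', Ak_sub_AA hT'⟩, Subtype.ext (r.mul_eq_one r' e),
    Subtype.ext (r'.mul_eq_one r e')⟩, hT, hT', r, r'⟩

/-- The letters, as units of the algebra and as units on the chain. -/
theorem letters : ∃ (W : AAˣ) (U : ZMod 2 → AAˣ),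
    (((W : AA) : H →L[ℂ] H) ∈ Ak 0 ∧ (((W⁻¹ : AAˣ) : AA) : H →L[ℂ] H) ∈ Ak 0 ∧
      ∀ e, ((U e : AA) : H →L[ℂ] H) ∈ Ak 0 ∧ ((((U e)⁻¹ : AAˣ) : AA) : H →L[ℂ] H) ∈ Ak 0) ∧
    ∀ x : X, ∃ (w : (Module.End ℂ (ℤ → ℂ))ˣ) (u : ZMod 2 → (Module.End ℂ (ℤ → ℂ))ˣ),
      (w : Module.End ℂ (ℤ → ℂ)) = wl x ∧ (∀ e, (u e : Module.End ℂ (ℤ → ℂ)) = ul x e) ∧
      Rel x ((W : AA) : H →L[ℂ] H) w ∧
      Rel x (((W⁻¹ : AAˣ) : AA) : H →L[ℂ] H) (w⁻¹ : (Module.End ℂ (ℤ → ℂ))ˣ) ∧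
      ∀ e, Rel x ((U e : AA) : H →L[ℂ] H) (u e) ∧
        Rel x ((((U e)⁻¹ : AAˣ) : AA) : H →L[ℂ] H) ((u e)⁻¹ : (Module.End ℂ (ℤ → ℂ))ˣ) := by
  obtain ⟨W, w1, w2, w3, w4⟩ := le_unit le_exists_w le_exists_w' le_wl_mul le_wl'_mul
  choose U u1 u2 u3 u4 using fun e => le_unit (le_exists_u e) (le_exists_u' e)
    (fun x => le_ul_mul x e) (fun x => le_ul'_mul x e)
  exact ⟨W, U, ⟨w1, w2, fun e => ⟨u1 e, u2 e⟩⟩, fun x =>
    ⟨⟨wl x, wl' x, le_wl_mul x, le_wl'_mul x⟩,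
      fun e => ⟨ul x e, ul' x e, le_ul_mul x e, le_ul'_mul x e⟩, rfl, fun _ => rfl,
      w3.rel x, w4.rel x, fun e => ⟨(u3 e).rel x, (u4 e).rel x⟩⟩⟩

lemma le_rel_mul {x : X} {T T' : H →L[ℂ] H} {t t' : Module.End ℂ (ℤ → ℂ)} (h : Rel x T t)
    (h' : Rel x T' t') : Rel x (T * T') (t * t') := by
  intro ξ c
  rw [mul_apply', h, Module.End.mul_apply]
  exact congrArg (fun η => t η c) (funext fun c' => h' ξ c')

lemma le_cw_rel {G G' : Type*} [Group G] [Group G'] (P : G → G' → Prop)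
    (hm : ∀ a b a' b', P a a' → P b b' → P (a * b) (a' * b')) {w : G} {w' : G'} {x : ℕ → G}
    {x' : ℕ → G'} (hw : P w w' ∧ P w⁻¹ w'⁻¹) (hx : ∀ n, P (x n) (x' n) ∧ P (x n)⁻¹ (x' n)⁻¹)
    (j : ℕ) : P (cw w x j) (cw w' x' j) ∧ P (cw w x j)⁻¹ (cw w' x' j)⁻¹ := by
  induction j with
  | zero => exact hw
  | succ j ih =>
    simp only [cw, mul_inv_rev, inv_inv]
    exact ⟨hm _ _ _ _ (hm _ _ _ _ (hm _ _ _ _ (hx j).2 ih.1) (hx j).1) ih.2,
      hm _ _ _ _ ih.1 (hm _ _ _ _ (hx j).2 (hm _ _ _ _ ih.2 (hx j).1))⟩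

/-- The word in the letters: level zero, and its action on the chain. -/
theorem word_letters : ∃ (W : AAˣ) (U : ZMod 2 → AAˣ), ∀ j : ℕ,
    (((cw W (fun n => U n) j : AAˣ) : AA) : H →L[ℂ] H) ∈ Ak 0 ∧
    ∀ x : X, ∃ (w : (Module.End ℂ (ℤ → ℂ))ˣ) (u : ZMod 2 → (Module.End ℂ (ℤ → ℂ))ˣ),
      (w : Module.End ℂ (ℤ → ℂ)) = wl x ∧ (∀ e, (u e : Module.End ℂ (ℤ → ℂ)) = ul x e) ∧
      Rel x (((cw W (fun n => U n) j : AAˣ) : AA) : H →L[ℂ] H)
        (cw w (fun n => u n) j : (Module.End ℂ (ℤ → ℂ))ˣ) := by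
  obtain ⟨W, U, ⟨w1, w2, u1⟩, h⟩ := letters
  refine ⟨W, U, fun j => ⟨?_, fun x => ?_⟩⟩
  · exact (le_cw_rel (fun (a : AAˣ) (_ : AAˣ) => ((a : AA) : H →L[ℂ] H) ∈ Ak 0)
      (fun _ _ _ _ ha hb => Ak_mul ha hb) (w' := W) (x' := fun n => U n) ⟨w1, w2⟩
      (fun n => u1 n) j).1
  · obtain ⟨w, u, e1, e2, r1, r2, r3⟩ := h x
    exact ⟨w, u, e1, e2, (le_cw_rel (fun (a : AAˣ) (b : (Module.End ℂ (ℤ → ℂ))ˣ) =>
      Rel x ((a : AA) : H →L[ℂ] H) b) (fun _ _ _ _ ha hb => le_rel_mul ha hb) ⟨r1, r2⟩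
      (fun n => r3 n) j).1⟩

end Pool.Agent.Lib.MP_f09365_an.M
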