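import Pool.Agent.Lib.MP_f09365_an.M.Defs
import Pool.Agent.Lib.MP_f09365_an.N.Top7

open scoped Classical
open Topology Filter

noncomputable section

namespace Pool.Agent.Lib.MP_f09365_an.M

lemma Sv_high (α : ℕ → ℂ) (a : ℂ) : ∀ (m : ℕ) (c : ℤ), (m : ℤ) < c → Sv α a m c = 0
  | 0, c, h => by
    have : c ≠ 0 := by omega
    simp [Sv, this]
  | m + 1, c, h => by
    have h1 : c ≠ (m : ℤ) + 1 := by omega
    have h2 := Sv_high α a m c (by omega)
    simp [Sv, h1, h2]

lemma Sv_form (α : ℕ → ℂ) : ∀ m : ℕ, ∃ ν : ℕ → ℝ, (∀ c, 0 ≤ ν c) ∧ ∀ a : ℂ,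
    Sv α a m 0 = ν 0 * a ∧ ∀ c : ℕ, c < m → Sv α a m ((c : ℤ) + 1) = ν (c + 1) * α c
  | 0 => ⟨fun _ => 1, fun _ => zero_le_one, fun a => ⟨by simp [Sv], fun c h => by omega⟩⟩
  | m + 1 => by
    obtain ⟨ν, h0, hν⟩ := Sv_form α m
    have hb : 0 ≤ bt (α m) := Real.sqrt_nonneg _
    refine ⟨fun c => if c = m + 1 then 1 else bt (α m) * ν c, fun c => ?_, fun a => ⟨?_, ?_⟩⟩
    · show 0 ≤ if c = m + 1 then 1 else bt (α m) * ν c
      split_ifs
      · exact zero_le_one
      · exact mul_nonneg hb (h0 c)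
    · have h1 : (0 : ℤ) ≠ (m : ℤ) + 1 := by omega
      simp [Sv, h1, (hν a).1, mul_assoc]
    · intro c hc
      by_cases h : c = m
      · subst h
        simp [Sv, Sv_high α a c ((c : ℤ) + 1) (by omega)]
      · have h1 : (c : ℤ) + 1 ≠ (m : ℤ) + 1 := by omega
        simp only [Sv, Pi.add_apply, Pi.single_eq_of_ne h1, Pi.smul_apply, smul_eq_mul, zero_add,
          (hν a).2 c (by omega), Nat.add_right_cancel_iff, h, if_false, Complex.ofReal_mul,
          mul_assoc]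

/-- The topological lemma (section 7 of the paper); it follows from `PBU`. -/
theorem topLemma {K : Type} [Fintype K] (W : K → Type) [∀ b, Fintype (W b)] (j : ℕ)
    (G₁ : (ℕ → D) × Circle × unitInterval × (∀ b, Sp (W b)) → ℤ → ℂ)
    (G₂ : (ℕ → D) × Circle × unitInterval × (∀ b, Sp (W b)) → ∀ b, W b → ℂ)
    (c₁ : Continuous G₁) (c₂ : Continuous G₂)
    (ne : ∀ p, (∃ c : ℤ, 0 ≤ c ∧ c ≤ j ∧ G₁ p c ≠ 0) ∨ G₂ p ≠ 0)
    (e₁ : ∀ α a t y b, G₁ (α, a, t, fun b' => if b' = b then (y b').neg else y b') =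
      G₁ (α, a, t, y))
    (e₂ : ∀ α a t y b b' s, G₂ (α, a, t, fun b' => if b' = b then (y b').neg else y b') b' s =
      if b' = b then -G₂ (α, a, t, y) b' s else G₂ (α, a, t, y) b' s)
    (h₀ : ∀ α a y, G₁ (α, a, 0, y) = Sv (fun c => α c) a j ∧ G₂ (α, a, 0, y) = 0)
    (h₁ : ∀ α a a' y, G₁ (α, a, 1, y) = G₁ (α, a', 1, y) ∧ G₂ (α, a, 1, y) = G₂ (α, a', 1, y))
    (hb : ∀ α a t y (c : ℕ), c < j → ‖(α c : ℂ)‖ = 1 → G₁ (α, a, t, y) 0 = 0) : False := by
  let τ : (Σ b, Option (W b × Bool)) → K := Sigma.fst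
  let σ : (Σ b, W b) → K := Sigma.fst
  have hsum : ∀ (Z : K → Type) [∀ b, Fintype (Z b)] (M : Type) [AddCommMonoid M]
      (f : (Σ b, Z b) → M) (k : K), ∑ i with i.1 = k, f i = ∑ o : Z k, f ⟨k, o⟩ := by
    intro Z _ M _ f k
    rw [Finset.sum_filter, Fintype.sum_sigma, Finset.sum_eq_single k]
    · simp
    · intro b _ hb
      simp [hb]
    · simp
  let ex : (Fin j → D) → ℕ → D := fun α n => if h : n < j then α ⟨n, h⟩ else ⟨0, by simp⟩
  have hex : Continuous ex := continuous_pi fun n => by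
    simp only [ex]
    split_ifs
    · exact continuous_apply _
    · exact continuous_const
  have hexc : ∀ α (c : Fin j), ex α c = α c := fun α c => dif_pos c.2
  let sp : Ash.Sph τ → ∀ b, Sp (W b) := fun y b =>
    ⟨fun o => y.1 ⟨b, o⟩, (hsum _ ℝ (fun i => y.1 i ^ 2) b).symm.trans (y.2 b)⟩
  have hco : ∀ i, Continuous fun y : Ash.Sph τ => y.1 i := fun i =>
    (continuous_apply i).comp continuous_subtype_val
  have hsp : Continuous sp := continuous_pi fun b => Continuous.subtype_mk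
    (continuous_pi fun o => hco ⟨b, o⟩) _
  let P : (Fin j → D) × Circle × unitInterval × Ash.Sph τ →
      (ℕ → D) × Circle × unitInterval × (∀ b, Sp (W b)) :=
    fun p => (ex p.1, p.2.1, p.2.2.1, sp p.2.2.2)
  have hP : Continuous P := by fun_prop
  refine N.top7 (j := j) τ σ (fun k => ?_)
    (fun p => (fun c => G₁ (P p) ((c : ℕ) : ℤ), fun s => G₂ (P p) s.1 s.2)) ?_ ?_ ?_ ?_ ?_ ?_
  · rw [Finset.card_eq_sum_ones, Finset.card_eq_sum_ones, hsum W ℕ (fun _ => 1) k,
      hsum (fun b => Option (W b × Bool)) ℕ (fun _ => 1) k]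
    simp
    omega
  · exact (continuous_pi fun c => (continuous_apply _).comp (c₁.comp hP)).prodMk
      (continuous_pi fun s =>
        (continuous_apply s.2).comp ((continuous_apply s.1).comp (c₂.comp hP)))
  · intro p h
    rcases ne (P p) with ⟨c, h0, h1, h2⟩ | h2
    · have := congrFun (congrArg Prod.fst h) ⟨c.toNat, by omega⟩
      simp only [Int.toNat_of_nonneg h0] at this
      exact h2 this
    · exact h2 (funext fun b => funext fun s => congrFun (congrArg Prod.snd h) ⟨b, s⟩)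
  · intro k α a t y y' h
    have e : sp y' = fun b' => if b' = k then (sp y b').neg else sp y b' := by
      ext b o
      by_cases hb : b = k <;> simp [sp, h, Ash.flp, τ, hb, Sp.neg]
    simp only [P, e, e₁, e₂, σ, true_and, implies_true]
  · intro α
    obtain ⟨ν, h0, hν⟩ := Sv_form (fun c => (ex α c : ℂ)) j
    refine ⟨fun c => ν c, fun c => h0 _, fun a y => ⟨?_, fun c => ?_, ?_⟩⟩
    · simp only [P, (h₀ _ _ _).1]
      exact (hν a).1
    · simp only [P, (h₀ _ _ _).1, Fin.val_succ, Nat.cast_add, Nat.cast_one]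
      rw [(hν a).2 c c.2, hexc]
    · simp only [P, (h₀ _ _ _).2]
      rfl
  · intro α a y
    simp only [P, (h₁ _ a 1 _).1, (h₁ _ a 1 _).2]
  · intro α a t y c h
    exact hb _ _ _ _ c c.2 (by rw [hexc]; exact h)

end Pool.Agent.Lib.MP_f09365_an.M
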