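import Pool.Agent.Lib.MP_f09365_an.M.Idx
import Pool.Agent.Lib.MP_f09365_an.N.Gam

open scoped Classical
open Topology Filter

noncomputable section

namespace Pool.Agent.Lib.MP_f09365_an.M

lemma wrd_cut (m : ℤ) : cut m = N.Pm m := by
  ext1 f
  funext n
  rw [N.Pm_apply]
  show (if n ≤ m then f n else 0) = _
  split_ifs <;> rfl

lemma wrd_ul (x : X) (e : ZMod 2) :
    ul x e = N.Um (al x) (fun c => (bt (al x c) : ℂ)) (e - x.1) := by
  ext1 f
  funext n
  rw [N.Um_apply]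
  have : (x.1 + (n : ZMod 2) = e) ↔ ((n : ZMod 2) = e - x.1) := by
    rw [eq_sub_iff_add_eq, add_comm]
  by_cases h : x.1 + (n : ZMod 2) = e
  · rw [if_pos (this.1 h)]
    exact if_pos h
  · rw [if_neg fun h' => h (this.2 h')]
    exact if_neg h

lemma wrd_gam {x : X} (h0 : x.1 = 0) :
    ∀ m : ℕ, gam x m = N.Gam (al x) (fun c => (bt (al x c) : ℂ)) m
  | 0 => rfl
  | m + 1 => by rw [gam, N.Gam, wrd_gam h0 m, wrd_cut, wrd_ul, h0, sub_zero]

lemma wrd_det (x : X) (c : ℤ) :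
    (starRingEnd ℂ) (al x c) * al x c + (bt (al x c) : ℂ) * (bt (al x c) : ℂ) = 1 := by
  have h := bt_sq (norm_al_le x c)
  rw [Complex.conj_mul', ← sq, add_comm]
  exact_mod_cast h

lemma wrd_Sv (x : X) (a : ℂ) : ∀ m : ℕ,
    Sv (fun c => al x c) a m = N.Sv (al x) (fun c => (bt (al x c) : ℂ)) a m
  | 0 => rfl
  | m + 1 => by
    rw [Sv, N.Sv, wrd_Sv x a m, ← Pi.single_smul', smul_eq_mul, mul_one]

theorem gam_cw {x : X} (h0 : x.1 = 0) (hph : ∀ c, 0 < c → ph x c = 1)
    (w : (Module.End ℂ (ℤ → ℂ))ˣ) (u : ZMod 2 → (Module.End ℂ (ℤ → ℂ))ˣ)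
    (hw : (w : Module.End ℂ (ℤ → ℂ)) = wl x) (hu : ∀ e, (u e : Module.End ℂ (ℤ → ℂ)) = ul x e)
    (m : ℕ) :
    gam x m (((cw w (fun n => u n) m : (Module.End ℂ (ℤ → ℂ))ˣ) : Module.End ℂ (ℤ → ℂ))
      (Pi.single (m : ℤ) 1)) = Sv (fun c => al x c) (ph x 0) m := by
  have ha : ∀ n, ph x n ≠ 0 := fun n h => by
    have := norm_ph x n
    rw [h, norm_zero] at this
    exact zero_ne_one this
  have e1 : w = N.Du (ph x) ha := Units.ext hw
  have e2 : ∀ e, u e = N.Uu _ _ (wrd_det x) e := fun e =>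
    Units.ext (by rw [hu, wrd_ul, h0, sub_zero]; rfl)
  have e3 : ∀ m, cw w (fun n => u n) m = N.gwd _ _ (wrd_det x) (ph x) ha m := by
    intro m
    induction m with
    | zero => exact e1
    | succ m ih => rw [cw, N.gwd, ih, e2]
  rw [e3, wrd_gam h0, wrd_Sv]
  exact N.gam_wd _ _ _ _ ha hph m

theorem gam_injective {x : X} (h0 : x.1 = 0) (m : ℕ) : Function.Injective (gam x m) := by
  rw [wrd_gam h0]
  exact N.Gam_inj _ _ (wrd_det x) m

theorem gam_cut {x : X} {c : ℤ} (hc : ‖al x c‖ = 1) (m : ℕ) :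
    gam x m * cut c = cut c * gam x m := by
  have hb : ((bt (al x c) : ℝ) : ℂ) = 0 := by
    rw [(bt_eq_zero hc.le).2 hc, Complex.ofReal_zero]
  induction m with
  | zero => simp [gam]
  | succ m ih =>
    have h1 : Commute (gam x m) (cut c) := ih
    have h2 : Commute (ul x m) (cut c) := by
      rw [wrd_ul, wrd_cut]
      exact N.Um_comm _ _ _ c fun _ => hb
    have h3 : Commute (cut ((m : ℤ) + 1)) (cut c) := by
      show _ * _ = _ * _
      rw [wrd_cut, wrd_cut, N.Pm_mul, N.Pm_mul, min_comm]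
    exact h1.mul_left ((h2.mul_left h3).add_left ((Commute.one_left _).sub_left h3))

theorem gam_congr {x x' : X} (h0 : x.1 = x'.1) (h : ∀ c, al x c = al x' c) (m : ℕ) :
    gam x m = gam x' m := by
  have e : al x = al x' := funext h
  induction m with
  | zero => rfl
  | succ m ih => rw [gam, gam, ih, wrd_ul, wrd_ul, h0, e]

theorem continuous_gam {P : Type*} [TopologicalSpace P] {x : P → X} (hx : Continuous x)
    (h0 : ∀ p, (x p).1 = 0) {ξ : P → ℤ → ℂ} (hξ : Continuous ξ) (m : ℕ) :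
    Continuous fun p => gam (x p) m (ξ p) := by
  simp only [fun p => wrd_gam (h0 p) m]
  exact N.Gam_cont (fun p => al (x p)) (fun p c => (bt (al (x p) c) : ℂ))
    (continuous_pi fun c => (continuous_al c).comp hx)
    (continuous_pi fun c =>
      Complex.continuous_ofReal.comp (continuous_bt.comp ((continuous_al c).comp hx))) m ξ hξ

end Pool.Agent.Lib.MP_f09365_an.M
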