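import Pool.Agent.Lib.MP_f09365_an.M.Props
import Pool.Agent.Lib.MP_f09365_an.M.Let
import Pool.Agent.Lib.MP_f09365_an.M.Word
import Pool.Agent.Lib.MP_f09365_an.M.Top

open scoped Classical
open Topology Filter

noncomputable section

namespace Pool.Agent.Lib.MP_f09365_an.M

lemma continuous_E_joint {P : Type*} [TopologicalSpace P] {x : P → X} (hx : Continuous x)
    {g : P → AA} (hg : Continuous g) (a b : ℤ) (s t : R) :
    Continuous fun p => E (g p : H →L[ℂ] H) (x p, a, s) (x p, b, t) := by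
  refine continuous_iff_continuousAt.2 fun q => ?_
  have h1 : Tendsto (fun p => E ((g p : H →L[ℂ] H) - g q) (x p, a, s) (x p, b, t)) (𝓝 q) (𝓝 0) := by
    refine squeeze_zero_norm (fun p => norm_E_le _ _ _) ?_
    have : Continuous fun p => ‖(g p : H →L[ℂ] H) - g q‖ :=
      ((continuous_subtype_val.comp hg).sub continuous_const).norm
    simpa using this.tendsto q
  have h2 := (((P1 (g q).2 a b s t).comp hx).tendsto q).add h1
  simp only [Function.comp, E_sub, add_sub_cancel, add_zero] at h2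
  exact h2

lemma Sv_congr {α α' : ℕ → ℂ} (a : ℂ) : ∀ m : ℕ, (∀ c, c < m → α c = α' c) → Sv α a m = Sv α' a m
  | 0, _ => rfl
  | m + 1, h => by
    simp only [Sv, h m (Nat.lt_succ_self m), Sv_congr a m fun c hc => h c (Nat.lt_succ_of_lt hc)]

/-- The test configurations. -/
def tp (j k : ℕ) (α : ℕ → D) (a : Circle) (y : ∀ b : Fin (j + 1) × Fin k, Sp (V b.2)) : X :=
  (0, fun c => (if 0 ≤ c ∧ c < j then α c.toNat else ⟨1, by simp⟩, if c = 0 then a else 1,
    fun l => if h : (0 ≤ c ∧ c ≤ j) ∧ l < k then y (⟨c.toNat, by omega⟩, ⟨l, h.2⟩)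
      else Sp.pole _))

lemma continuous_tp (j k : ℕ) : Continuous fun p : (ℕ → D) × Circle × unitInterval ×
    (∀ b : Fin (j + 1) × Fin k, Sp (V b.2)) => tp j k p.1 p.2.1 p.2.2.2 := by
  refine continuous_const.prodMk (continuous_pi fun c => Continuous.prodMk ?_
    (Continuous.prodMk ?_ (continuous_pi fun l => ?_)))
  · split_ifs
    · fun_prop
    · exact continuous_const
  · split_ifs
    · fun_prop
    · exact continuous_const
  · split_ifs
    · exact (continuous_apply _).comp (continuous_snd.comp (continuous_snd.comp continuous_snd))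
    · exact continuous_const

lemma al_tp_in {j k : ℕ} (α : ℕ → D) (a : Circle) (y : ∀ b : Fin (j + 1) × Fin k, Sp (V b.2))
    {c : ℕ} (hc : c < j) : al (tp j k α a y) c = α c := by
  have : (0 : ℤ) ≤ c ∧ (c : ℤ) < j := by omega
  simp only [al, tp, if_pos this, Int.toNat_natCast]

lemma al_tp_out {j k : ℕ} (α : ℕ → D) (a : Circle) (y : ∀ b : Fin (j + 1) × Fin k, Sp (V b.2))
    {c : ℤ} (hc : c < 0 ∨ (j : ℤ) ≤ c) : ‖al (tp j k α a y) c‖ = 1 := by
  have : ¬((0 : ℤ) ≤ c ∧ c < j) := by omega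
  simp only [al, tp, if_neg this, norm_one]

lemma tp_flp {j k : ℕ} (α : ℕ → D) (a : Circle) (y : ∀ b : Fin (j + 1) × Fin k, Sp (V b.2))
    (b : Fin (j + 1) × Fin k) (inst : ∀ b', Decidable (b' = b)) :
    tp j k α a (fun b' => if b' = b then (y b').neg else y b') =
      flp ((b.1 : ℕ) : ℤ) b.2 (tp j k α a y) := by
  refine Prod.ext rfl (funext fun c => Prod.ext rfl (Prod.ext rfl (funext fun l => ?_)))
  obtain ⟨⟨b1, h1⟩, ⟨b2, h2⟩⟩ := b
  simp only [tp, flp]
  by_cases h : (0 ≤ c ∧ c ≤ j) ∧ l < k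
  · simp only [dif_pos h, Prod.mk.injEq, Fin.mk.injEq]
    refine if_congr ?_ rfl rfl
    omega
  · simp only [dif_neg h]
    rw [if_neg]
    omega

lemma cut_gam {x : X} {c : ℤ} (hc : ‖al x c‖ = 1) (m : ℕ) (ξ : ℤ → ℂ) :
    cut c (gam x m ξ) = gam x m (cut c ξ) :=
  (LinearMap.congr_fun (gam_cut hc m) ξ).symm

lemma gam_low {x : X} {c : ℤ} (hc : ‖al x c‖ = 1) (m : ℕ) {ξ : ℤ → ℂ}
    (hξ : ∀ d, d ≤ c → ξ d = 0) {d : ℤ} (hd : d ≤ c) : gam x m ξ d = 0 := by
  have h1 : cut c ξ = 0 := funext fun e => by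
    show (if e ≤ c then ξ e else 0) = 0
    split_ifs with h
    · exact hξ e h
    · rfl
  have h2 := congrFun (cut_gam hc m ξ) d
  rw [h1, map_zero] at h2
  exact (if_pos hd).symm.trans h2

lemma gam_high {x : X} {c : ℤ} (hc : ‖al x c‖ = 1) (m : ℕ) {ξ : ℤ → ℂ}
    (hξ : ∀ d, c < d → ξ d = 0) {d : ℤ} (hd : c < d) : gam x m ξ d = 0 := by
  have h1 : cut c ξ = ξ := funext fun e => by
    show (if e ≤ c then ξ e else 0) = ξ e
    split_ifs with h
    · rfl
    · exact (hξ e (not_le.1 h)).symm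
  have h2 := congrFun (cut_gam hc m ξ) d
  rw [h1] at h2
  exact h2.symm.trans (if_neg (not_le.2 hd))

theorem notGL : ∃ (W : AAˣ) (U : ZMod 2 → AAˣ), ∀ (j : ℕ) (γ : ℝ → AA), Continuous γ →
    (∀ t, IsUnit (γ t)) → γ 0 = (cw W (fun n => U n) j : AAˣ) → γ 1 = 1 → False := by
  obtain ⟨W, U, hWU⟩ := word_letters
  refine ⟨W, U, fun j γ hγ hu h0 h1 => ?_⟩
  obtain ⟨k, hk⟩ := level_cut γ hγ hu
  let x : (ℕ → D) × Circle × unitInterval × (∀ b : Fin (j + 1) × Fin k, Sp (V b.2)) → X :=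
    fun p => tp j k p.1 p.2.1 p.2.2.2
  let g : (ℕ → D) × Circle × unitInterval × (∀ b : Fin (j + 1) × Fin k, Sp (V b.2)) → AA :=
    fun p => γ p.2.2.1
  have hx : Continuous x := continuous_tp j k
  have hg : Continuous g := hγ.comp (by fun_prop)
  have hlo : ∀ p s (d : ℤ), d < 0 → E (g p : H →L[ℂ] H) (x p, d, s) (x p, (j : ℤ), bot) = 0 :=
    fun p s d hd => P3 (c := -1) (g p).2 s bot (by unfold Btw; omega)
      (al_tp_out _ _ _ (Or.inl (by omega)))
  have hhi : ∀ p s (d : ℤ), (j : ℤ) < d →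
      E (g p : H →L[ℂ] H) (x p, d, s) (x p, (j : ℤ), bot) = 0 :=
    fun p s d hd => P3 (c := j) (g p).2 s bot (by unfold Btw; omega)
      (al_tp_out _ _ _ (Or.inr le_rfl))
  refine topLemma (fun b : Fin (j + 1) × Fin k => V b.2) j
    (fun p => gam (x p) j fun c => E (g p : H →L[ℂ] H) (x p, c, bot) (x p, (j : ℤ), bot))
    (fun p b s => E (g p : H →L[ℂ] H) (x p, ((b.1 : ℕ) : ℤ), s.1) (x p, (j : ℤ), bot))
    (continuous_gam hx (fun _ => rfl)
      (continuous_pi fun c => continuous_E_joint hx hg _ _ _ _) j)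
    (continuous_pi fun b => continuous_pi fun s => continuous_E_joint hx hg _ _ _ _)
    ?_ ?_ ?_ ?_ ?_ ?_
  · intro p
    obtain ⟨b, s, hs, hE⟩ := hk p.2.2.1 p.2.2.1.2 (x p) j
    have hb0 : 0 ≤ b := not_lt.1 fun h => hE (hlo p s b h)
    have hbj : b ≤ j := not_lt.1 fun h => hE (hhi p s b h)
    rcases eq_bot_or_isTop s with rfl | ⟨l, hl⟩
    · left
      by_contra hcon
      refine hE (congrFun (gam_injective (x := x p) rfl j (a₂ := 0)
        (a₁ := fun c => E (g p : H →L[ℂ] H) (x p, c, bot) (x p, (j : ℤ), bot)) ?_) b)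
      rw [map_zero]
      ext c
      rcases lt_or_ge c 0 with hc | hc
      · exact gam_low (c := -1) (al_tp_out _ _ _ (Or.inl (by omega))) j
          (fun d hd => hlo p _ d (by omega)) (by omega)
      rcases lt_or_ge (j : ℤ) c with hc' | hc'
      · exact gam_high (c := j) (al_tp_out _ _ _ (Or.inr le_rfl)) j (fun d hd => hhi p _ d hd) hc'
      · by_contra h
        exact hcon ⟨c, hc, hc', h⟩
    · right
      intro h
      have := congrFun (congrFun h (⟨b.toNat, by omega⟩, ⟨l, hl.lt hs⟩)) ⟨s, hl⟩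
      simp only [Int.toNat_of_nonneg hb0] at this
      exact hE this
  · intro α a t y b
    simp only [x, g]
    erw [tp_flp]
    rw [gam_congr (fst_flp _ _ _) (fun c => al_flp _ _ _ c)]
    congr 1
    ext c
    rw [P2 (γ t).2]
    simp
  · intro α a t y b b' s
    simp only [x, g]
    erw [tp_flp]
    rw [P2 (γ t).2, sg_bot]
    unfold sg
    by_cases h : b' = b
    · subst h
      simp [s.2]
    · rw [if_neg h, if_neg]
      · simp
      · rintro ⟨e1, e2⟩
        exact h (Prod.ext (Fin.ext (by omega)) (Fin.ext (s.2.unique e2)))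
  · intro α a y
    obtain ⟨hA, hR⟩ := hWU j
    obtain ⟨w, u, hw, hu', hrel⟩ := hR (tp j k α a y)
    simp only [x, g, Set.Icc.coe_zero, h0]
    constructor
    · have e1 : ∀ c', (lp.single 2 (tp j k α a y, (j : ℤ), bot) (1 : ℂ) : H) (tp j k α a y, c', bot) =
          (Pi.single (j : ℤ) (1 : ℂ) : ℤ → ℂ) c' := by
        intro c'
        by_cases h : c' = j
        · subst h
          simp
        · rw [lp.single_apply_ne _ _ _ (by simp [h]), Pi.single_eq_of_ne h]
      have e2 := fun c => hrel (lp.single 2 (tp j k α a y, (j : ℤ), bot) (1 : ℂ)) c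
      simp only [e1] at e2
      simp only [E, e2]
      rw [gam_cw (x := tp j k α a y) rfl (fun c hc => by simp [ph, tp, hc.ne']) w u hw hu' j,
        Sv_congr _ j fun c hc => al_tp_in α a y hc]
      simp [ph, tp]
    · ext b s
      exact P5 hA (fun h => absurd (s.2.lt h) (Nat.not_lt_zero _)) (low_bot 0)
  · intro α a a' y
    simp only [x, g, Set.Icc.coe_one, h1, OneMemClass.coe_one, E_one, Prod.mk.injEq, true_and,
      and_true]
    rw [gam_congr (x := tp j k α a y) (x' := tp j k α a' y) rfl fun c => rfl]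
  · intro α a t y c hc h
    have hbr : ‖al (tp j k α a y) c‖ = 1 := by rw [al_tp_in α a y hc, h]
    exact gam_low hbr j (fun d hd => P3 (c := c) (γ t).2 bot bot (by unfold Btw; omega) hbr)
      (Int.natCast_nonneg c)

end Pool.Agent.Lib.MP_f09365_an.M
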