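import Pool.Agent.Lib.MP_f09365_an.M.Idx

open scoped Classical
open Topology Filter

noncomputable section

namespace Pool.Agent.Lib.MP_f09365_an.M

/-- The scalar product of the sphere parameters of two configurations. -/
def ipz (z : X) (a : ℤ) (l : ℕ) (x : X) : ℝ := ∑ c, (et x a l).1 c * (et z a l).1 c

lemma continuous_ipz (z : X) (a : ℤ) (l : ℕ) : Continuous (ipz z a l) :=
  continuous_finsetSum _ fun c _ =>
    ((continuous_apply c).comp (continuous_subtype_val.comp (continuous_et a l))).mul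
      continuous_const

lemma ipz_self (z : X) (a : ℤ) (l : ℕ) : ipz z a l z = 1 := by
  simpa only [ipz, sq] using (et z a l).2

lemma ipz_flp (z : X) (a : ℤ) (l : ℕ) (c : ℤ) (l' : ℕ) (x : X) :
    ipz z a l (flp c l' x) = if a = c ∧ l = l' then -ipz z a l x else ipz z a l x := by
  unfold ipz
  rw [et_flp]
  split_ifs
  · simp [Sp.neg]
  · rfl

/-- The local sign. -/
def kap (z : X) (a : ℤ) (r : R) (x : X) : ℝ :=
  if h : ∃ l, IsTop r l then max (-1) (min 1 (2 * ipz z a h.choose x)) else 1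

lemma continuous_kap (z : X) (a : ℤ) (r : R) : Continuous (kap z a r) := by
  unfold kap
  split_ifs with h
  · have := continuous_ipz z a h.choose
    fun_prop
  · exact continuous_const

lemma kap_self (z : X) (a : ℤ) (r : R) : kap z a r z = 1 := by
  unfold kap
  split_ifs
  · rw [ipz_self]
    norm_num
  · rfl

lemma kap_flp (z : X) (a : ℤ) (r : R) (c : ℤ) (l : ℕ) (x : X) :
    kap z a r (flp c l x) = sg c l a r * kap z a r x := by
  unfold kap sg
  by_cases h : ∃ l, IsTop r l
  · rw [dif_pos h, dif_pos h, ipz_flp]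
    have e : (a = c ∧ h.choose = l) ↔ (c = a ∧ IsTop r l) :=
      and_congr eq_comm ⟨fun h' => h' ▸ h.choose_spec, fun h' => h.choose_spec.unique h'⟩
    by_cases h' : c = a ∧ IsTop r l
    · rw [if_pos h', if_pos (e.2 h')]
      simp only [max_def, min_def]
      split_ifs <;> linarith
    · rw [if_neg h', if_neg (mt e.1 h'), one_mul]
  · rw [dif_neg h, dif_neg h, if_neg fun h' => h ⟨l, h'.2⟩, one_mul]

lemma kap_sq {k : ℕ} {z : X} {a : ℤ} {r : R} {x : X} (hr : Low k r)
    (h : ∀ l < k, 1 / 2 < |ipz z a l x|) : kap z a r x ^ 2 = 1 := by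
  unfold kap
  split_ifs with h'
  · rcases lt_abs.1 (h _ (h'.choose_spec.lt hr)) with h1 | h1
    · rw [min_eq_left (by linarith)]
      norm_num
    · rw [max_eq_left ((min_le_right _ _).trans (by linarith))]
      norm_num
  · norm_num

lemma abs_sg (c : ℤ) (l : ℕ) (a : ℤ) (s : R) : ‖(sg c l a s : ℂ)‖ = 1 := by
  unfold sg
  split_ifs <;> simp

/-- A partition of unity with signs. -/
theorem partition {ι : Type} [Fintype ι] (k L : ℕ) (h : ι → C(X, ℂ)) (m : ι → ℤ) (s t : ι → R)
    (hs : ∀ j, Low k (s j) ∧ Low k (t j) ∧ Adm (h j) (m j) (s j) (t j)) {ε : ℝ} (hε : 0 < ε) :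
    ∃ (F : Finset X) (v : X → ℤ → R → C(X, ℝ)),
      (∀ z a r c l x, Low k r → v z a r (flp c l x) = sg c l a r * v z a r x) ∧
      (∀ a r x, |a| ≤ (L : ℤ) → Low k r → ∑ z ∈ F, v z a r x ^ 2 = 1) ∧
      ∀ j a x, |a| ≤ (L : ℤ) → |a + m j| ≤ (L : ℤ) →
        ‖∑ z ∈ F, h j (sh a z) * (v z a (s j) x : ℂ) * (v z (a + m j) (t j) x : ℂ) -
          h j (sh a x)‖ ≤ ε := by
  let d : X → ι → ℤ → X → ℝ := fun z j a x =>
    ‖h j (sh a z) * (kap z a (s j) x : ℂ) * (kap z (a + m j) (t j) x : ℂ) - h j (sh a x)‖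
  have hdc : ∀ z j a, Continuous (d z j a) := by
    intro z j a
    have h1 := continuous_kap z a (s j)
    have h2 := continuous_kap z (a + m j) (t j)
    have h3 := continuous_sh a
    fun_prop
  have hdf : ∀ z j a c l x, d z j a (flp c l x) = d z j a x := by
    intro z j a c l x
    simp only [d]
    rw [kap_flp, kap_flp, sh_flp, (hs j).2.2.1, sg_sub, sg_sub, zero_add, add_comm (m j) a]
    calc _ = ‖(sg c l a (s j) : ℂ) * (sg c l (a + m j) (t j) : ℂ) *
          (h j (sh a z) * (kap z a (s j) x : ℂ) * (kap z (a + m j) (t j) x : ℂ) -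
            h j (sh a x))‖ := by
          congr 1
          push_cast
          ring
      _ = _ := by rw [norm_mul, norm_mul, abs_sg, abs_sg, one_mul, one_mul]
  let g : X → X → ℝ := fun z x => ∏ a ∈ Finset.Icc (-(L : ℤ)) L,
    (∏ j, max 0 (ε - d z j a x)) * ∏ l ∈ Finset.range k, max 0 (|ipz z a l x| - 1 / 2)
  have hgc : ∀ z, Continuous (g z) := fun z =>
    continuous_finsetProd _ fun a _ =>
      (continuous_finsetProd _ fun j _ =>
        continuous_const.max (continuous_const.sub (hdc z j a))).mul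
        (continuous_finsetProd _ fun l _ =>
          continuous_const.max ((continuous_ipz z a l).abs.sub continuous_const))
  have hgf : ∀ z c l x, g z (flp c l x) = g z x := by
    intro z c l x
    refine Finset.prod_congr rfl fun a _ => ?_
    simp only [hdf, ipz_flp, apply_ite abs, abs_neg, ite_self]
  have hgz : ∀ z, g z z ≠ 0 := by
    intro z
    refine Finset.prod_ne_zero_iff.2 fun a _ => mul_ne_zero
      (Finset.prod_ne_zero_iff.2 fun j _ => ?_) (Finset.prod_ne_zero_iff.2 fun l _ => ?_)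
    · simp [d, kap_self, hε]
    · rw [ipz_self]
      norm_num
  have hg : ∀ z x, g z x ≠ 0 → ∀ a, |a| ≤ (L : ℤ) →
      (∀ j, d z j a x ≤ ε) ∧ ∀ r, Low k r → kap z a r x ^ 2 = 1 := by
    intro z x hx a ha
    have h1 := mul_ne_zero_iff.1
      (Finset.prod_ne_zero_iff.1 hx a (Finset.mem_Icc.2 (abs_le.1 ha)))
    refine ⟨fun j => ?_, fun r hr => kap_sq hr fun l hl => ?_⟩
    · by_contra h2
      exact Finset.prod_ne_zero_iff.1 h1.1 j (Finset.mem_univ j)
        (max_eq_left (by linarith [not_le.1 h2]))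
    · by_contra h2
      exact Finset.prod_ne_zero_iff.1 h1.2 l (Finset.mem_range.2 hl)
        (max_eq_left (by linarith [not_lt.1 h2]))
  obtain ⟨F, -, hF⟩ := (isCompact_univ (X := X)).elim_nhds_subcover (fun z => {x | g z x ≠ 0})
    fun z _ => (isOpen_ne_fun (hgc z) continuous_const).mem_nhds (hgz z)
  let n : X → ℝ := fun x => ∑ z ∈ F, g z x ^ 2
  have hn : ∀ x, 0 < n x := by
    intro x
    obtain ⟨z, hz, hx⟩ := Set.mem_iUnion₂.1 (hF (Set.mem_univ x))
    exact Finset.sum_pos' (fun _ _ => sq_nonneg _) ⟨z, hz, sq_pos_of_ne_zero hx⟩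
  have hnc : Continuous n := continuous_finsetSum _ fun z _ => (hgc z).pow 2
  let p : X → X → ℝ := fun z x => g z x / √(n x)
  have hp : ∀ x, ∑ z ∈ F, p z x ^ 2 = 1 := by
    intro x
    simp only [p, div_pow, Real.sq_sqrt (hn x).le, ← Finset.sum_div]
    exact div_self (hn x).ne'
  have hp0 : ∀ z x, g z x = 0 → p z x = 0 := fun z x hx => by simp [p, hx]
  refine ⟨F, fun z a r => ⟨fun x => p z x * kap z a r x,
    ((hgc z).div hnc.sqrt fun x => (Real.sqrt_pos.2 (hn x)).ne').mul (continuous_kap z a r)⟩,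
    fun z a r c l x _ => ?_, fun a r x ha hr => ?_, fun j a x ha _ => ?_⟩
  · simp only [ContinuousMap.coe_mk, p, n, hgf, kap_flp]
    ring
  · refine Eq.trans (Finset.sum_congr rfl fun z _ => ?_) (hp x)
    by_cases hx : g z x = 0
    · simp [hp0 z x hx]
    · simp only [ContinuousMap.coe_mk, mul_pow, (hg z x hx a ha).2 r hr, mul_one]
  · have e : ∑ z ∈ F, h j (sh a z) * ((p z x * kap z a (s j) x : ℝ) : ℂ) *
        ((p z x * kap z (a + m j) (t j) x : ℝ) : ℂ) - h j (sh a x) =
        ∑ z ∈ F, ((p z x ^ 2 : ℝ) : ℂ) * (h j (sh a z) * (kap z a (s j) x : ℂ) *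
          (kap z (a + m j) (t j) x : ℂ) - h j (sh a x)) := by
      simp only [mul_sub, Finset.sum_sub_distrib, ← Finset.sum_mul, ← Complex.ofReal_sum, hp,
        Complex.ofReal_one, one_mul]
      congr 1
      refine Finset.sum_congr rfl fun z _ => ?_
      push_cast
      ring
    simp only [ContinuousMap.coe_mk]
    rw [e, show ε = (∑ z ∈ F, p z x ^ 2) * ε by rw [hp, one_mul], Finset.sum_mul]
    refine norm_sum_le_of_le _ fun z _ => ?_
    rw [norm_mul, Complex.norm_real, Real.norm_of_nonneg (sq_nonneg _)]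
    by_cases hx : g z x = 0
    · simp [hp0 z x hx]
    · exact mul_le_mul_of_nonneg_left ((hg z x hx a ha).1 j) (sq_nonneg _)

end Pool.Agent.Lib.MP_f09365_an.M
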