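import Pool.Agent.Lib.MP_f09365_an.M.Op
import Pool.Agent.Lib.MP_f09365_an.N.Gen

open scoped Classical CStarAlgebra ComplexOrder
open Topology Filter

set_option linter.style.haveILetI false

noncomputable section

namespace Pool.Agent.Lib.MP_f09365_an.M

open Pool.Agent.Lib.MP_30b5b4_an Pool.Agent.Lib.MP_f09365_an.N

lemma cp_of_isCP {A B : Type*} [CStarAlgebra A] [CStarAlgebra B] [PartialOrder B]
    [StarOrderedRing B] (φ : A →ₗ[ℂ] B) (h : IsCP φ) : CP φ := by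
  letI := CStarAlgebra.spectralOrder A
  haveI := CStarAlgebra.spectralOrderedRing A
  obtain ⟨T, hT⟩ := exists_cp_of_isCP φ (NonUnitalStarAlgHom.id ℂ _) (fun _ _ h => h)
    (fun _ => rfl) h
  intro k M
  obtain ⟨C, hC⟩ := exists_star_mul (T.map_cstarMatrix_nonneg' k _
    (star_mul_self_nonneg (CStarMatrix.ofMatrix M)))
  refine ⟨CStarMatrix.ofMatrix.symm C, ?_⟩
  ext i j
  have := congrFun (congrFun hC i) j
  rw [Matrix.map_apply, ← hT]
  exact this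

lemma norm_le_of_isCP {A B : Type*} [CStarAlgebra A] [CStarAlgebra B] [PartialOrder B]
    [StarOrderedRing B] {φ : A →ₗ[ℂ] B} (h : IsCP φ) (h1 : φ 1 = 1) (a : A) : ‖φ a‖ ≤ ‖a‖ :=
  h.norm_le h1.le a

lemma norm_toEuclideanCLM {n : ℕ} (M : Matrix (Fin n) (Fin n) ℂ) :
    ‖Matrix.toEuclideanCLM (𝕜 := ℂ) M‖ = ‖CStarMatrix.ofMatrix M‖ := by
  let e : CStarMatrix (Fin n) (Fin n) ℂ ≃⋆ₐ[ℂ]
      (EuclideanSpace ℂ (Fin n) →L[ℂ] EuclideanSpace ℂ (Fin n)) :=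
    (CStarMatrix.ofMatrixStarAlgEquiv (n := Fin n) (A := ℂ)).symm.trans
      (Matrix.toEuclideanCLM (𝕜 := ℂ))
  exact StarAlgEquiv.norm_map e (CStarMatrix.ofMatrix M)

/-- Compression to finitely many basis vectors is completely positive and contractive. -/
theorem compress (A : StarSubalgebra ℂ (H →L[ℂ] H)) {n : ℕ} (p : Fin n → I)
    (hp : Function.Injective p) :
    ∃ ψ : A →ₗ[ℂ] Matrix (Fin n) (Fin n) ℂ, (∀ T a b, ψ T a b = E (T : H →L[ℂ] H) (p a) (p b)) ∧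
      CP ψ ∧ ∀ T, ‖Matrix.toEuclideanCLM (𝕜 := ℂ) (ψ T)‖ ≤ ‖T‖ := by
  let e : Fin n → H := fun a => lp.single 2 (p a) 1
  let ρ : (H →L[ℂ] H) →⋆ₐ[ℂ] (H →L[ℂ] H) := StarAlgHom.id ℂ _
  have hE : ∀ T a b, compL ρ e T a b = E T (p a) (p b) := fun T a b => by
    rw [compL_apply, E_eq_inner]
    rfl
  have h1 : compL ρ e 1 = 1 := by
    ext a b
    rw [hE, E_one, CStarMatrix.one_apply]
    simp only [hp.eq_iff]
  let ψ : A →ₗ[ℂ] Matrix (Fin n) (Fin n) ℂ :=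
    { toFun := fun T => Matrix.of fun a b => E (T : H →L[ℂ] H) (p a) (p b)
      map_add' := fun T T' => by
        ext a b
        simp [E_add]
      map_smul' := fun c T => by
        ext a b
        simp [E_smul] }
  have hψ : ∀ T : A, CStarMatrix.ofMatrix (ψ T) = compL ρ e T := fun T => by
    ext a b
    rw [hE]
    rfl
  refine ⟨ψ, fun T a b => rfl, fun k B => ?_, fun T => ?_⟩
  · obtain ⟨C, hC⟩ := cp_of_isCP _ (compL_cp ρ e) k (B.map fun T => (T : H →L[ℂ] H))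
    refine ⟨C.map CStarMatrix.ofMatrix.symm, ?_⟩
    refine Matrix.ext fun i j => ?_
    have h2 := congrFun (congrFun hC i) j
    have h3 : (star (B.map fun T => (T : H →L[ℂ] H)) * B.map fun T => (T : H →L[ℂ] H)) i j
        = (((star B * B) i j : A) : H →L[ℂ] H) := by
      simp [Matrix.mul_apply, Matrix.star_apply]
    rw [Matrix.map_apply, h3, ← hψ] at h2
    exact h2
  · rw [norm_toEuclideanCLM, hψ]
    exact (compL_cp ρ e).norm_le h1.le _

/-- A column family with `∑ r⋆ r = 1` gives a completely positive contraction. -/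
theorem expand (A : StarSubalgebra ℂ (H →L[ℂ] H)) [IsClosed (A : Set (H →L[ℂ] H))] {n : ℕ}
    {ι : Type*} (F : Finset ι)
    (r : ι → Fin n → A) (hr : ∑ z ∈ F, ∑ a, star (r z a) * r z a = 1) :
    ∃ φ : Matrix (Fin n) (Fin n) ℂ →ₗ[ℂ] A,
      (∀ M, φ M = ∑ z ∈ F, ∑ a, ∑ b, M a b • (star (r z a) * r z b)) ∧ CP φ ∧
        ∀ M, ‖φ M‖ ≤ ‖Matrix.toEuclideanCLM (𝕜 := ℂ) M‖ := by
  letI := CStarAlgebra.spectralOrder A
  haveI := CStarAlgebra.spectralOrderedRing A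
  let Φ : CStarMatrix (Fin n) (Fin n) ℂ →ₗ[ℂ] A := ∑ z ∈ F, buildL (r z)
  have hΦ : IsCP Φ := IsCP.sum F _ fun z _ => buildL_cp (r z)
  have hap : ∀ M, Φ M = ∑ z ∈ F, ∑ a, ∑ b, M a b • (star (r z a) * r z b) := fun M => by
    simp only [Φ, LinearMap.sum_apply, buildL_apply]
  have h1 : Φ 1 = 1 := by
    rw [hap, ← hr]
    refine Finset.sum_congr rfl fun z _ => Finset.sum_congr rfl fun a _ => ?_
    simp [CStarMatrix.one_apply]
  let φ : Matrix (Fin n) (Fin n) ℂ →ₗ[ℂ] A :=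
    Φ ∘ₗ (CStarMatrix.ofMatrixₗ (R := ℂ) (m := Fin n) (n := Fin n) (A := ℂ)).toLinearMap
  refine ⟨φ, fun M => hap _, fun k B => ?_, fun M => ?_⟩
  · obtain ⟨C, hC⟩ := cp_of_isCP _ hΦ k (B.map CStarMatrix.ofMatrix)
    exact ⟨C, hC⟩
  · rw [norm_toEuclideanCLM]
    exact norm_le_of_isCP hΦ h1 _

end Pool.Agent.Lib.MP_f09365_an.M
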