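import Pool.Agent.Lib.MP_f09365_an.M.Idx
import Pool.Agent.Lib.MP_f09365_an.N.Xi

open scoped Classical
open Topology Filter

noncomputable section

namespace Pool.Agent.Lib.MP_f09365_an.M

open Pool.Agent.Lib.MP_f09365_an.N

lemma xi_sh (L : ℕ) (a b : ℤ) (x : X) :
    xi L (fun c => bt (al (sh (-a) x) c)) 0 b = xi L (fun c => bt (al x c)) (-a) (b - a) := by
  have h := xi_shift (L := L) (fun c => bt (al x c)) (-a) 0 b
  rw [zero_add, ← sub_eq_add_neg] at h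
  exact h

lemma sum_Icc_neg (L : ℕ) (f : ℤ → ℝ) :
    ∑ a ∈ Finset.Icc (-(L : ℤ)) L, f (-a) = ∑ n ∈ Finset.Icc (-(L : ℤ)) L, f n := by
  refine Finset.sum_bij' (fun c _ => -c) (fun c _ => -c) ?_ ?_ ?_ ?_ ?_
  · intro c hc; simp only [Finset.mem_Icc] at hc ⊢; omega
  · intro c hc; simp only [Finset.mem_Icc] at hc ⊢; omega
  · intro c _; simp
  · intro c _; simp
  · intro c _; rfl

/-- Reiter weights adapted to the broken bonds; `ξ a x` is the weight of site `a` in the window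
centred at site `0` of `x`. -/
theorem weights (Rb : ℕ) {δ ε : ℝ} (hδ : 0 < δ) (hε : 0 < ε) :
    ∃ (L : ℕ) (ξ : ℤ → C(X, ℝ)), (∀ a x, 0 ≤ ξ a x) ∧ (∀ a x, (L : ℤ) < |a| → ξ a x = 0) ∧
      (∀ a c l x, ξ a (flp c l x) = ξ a x) ∧
      (∀ a x c, Btw 0 a c → ‖al x c‖ = 1 → ξ a x = 0) ∧
      (∀ x, ∑ a ∈ Finset.Icc (-(L : ℤ)) L, ξ a (sh (-a) x) ^ 2 = 1) ∧
      ∀ (m : ℤ) (x : X), |m| ≤ Rb → (∀ c, Btw 0 m c → δ ≤ bt (al x c)) →
        1 - ε ≤ ∑ a ∈ Finset.Icc (-(L : ℤ)) L, ξ a (sh (-a) x) * ξ (a + m) (sh (-a) x) := by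
  obtain ⟨L, hL, hc⟩ := exists_xi_close hδ hε Rb
  have hsub : Finset.Icc ((0 : ℤ) - L) (0 + L) ⊆ Finset.Icc (-(L : ℤ)) L := by simp
  refine ⟨L, fun a => ⟨fun x => xi L (fun c => bt (al x c)) 0 a,
    (continuous_xi hL 0 a).comp (continuous_pi fun c => continuous_bt.comp (continuous_al c))⟩,
    fun a x => xi_nonneg _ _ _, fun a x ha => xi_far hL _ (by simpa using ha.le),
    fun a c l x => rfl, fun a x c hb hx => xi_broken hL _ hb.1 hb.2
      ((bt_eq_zero (norm_al_le x c)).2 hx).le, fun x => ?_, fun m x hm hb => ?_⟩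
  · simp only [ContinuousMap.coe_mk, xi_sh, sub_self]
    rw [sum_Icc_neg L fun n => xi L (fun c => bt (al x c)) n 0 ^ 2]
    exact sum_xi_sq hL _ 0 hsub
  · simp only [ContinuousMap.coe_mk, xi_sh, sub_self, add_sub_cancel_left]
    rw [sum_Icc_neg L fun n => xi L (fun c => bt (al x c)) n 0 * xi L (fun c => bt (al x c)) n m]
    exact hc _ 0 m _ (by simpa using hm) (fun c h1 h2 => hb c ⟨h1, h2⟩) hsub

end Pool.Agent.Lib.MP_f09365_an.M
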