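import Pool.Agent.Lib.MP_f09365_an.M.Alg
import Pool.Agent.Lib.MP_f09365_an.M.Wt
import Pool.Agent.Lib.MP_f09365_an.M.Part
import Pool.Agent.Lib.MP_f09365_an.M.Ucp

open scoped Classical
open Topology Filter

noncomputable section

namespace Pool.Agent.Lib.MP_f09365_an.M

/-- A real function as a complex one. -/
def cxf (f : C(X, ℝ)) : C(X, ℂ) := ⟨fun x => (f x : ℂ), by fun_prop⟩

@[simp] lemma cxf_apply (f : C(X, ℝ)) (x : X) : cxf f x = (f x : ℂ) := rfl

lemma exists_delta {ι : Type} [Fintype ι] (h : ι → C(X, ℂ)) (m : ι → ℤ) (s t : ι → R)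
    (hs : ∀ j, Adm (h j) (m j) (s j) (t j)) {ε : ℝ} (hε : 0 < ε) :
    ∃ δ, 0 < δ ∧ ∀ j x c, Btw 0 (m j) c → bt (al x c) < δ → ‖h j x‖ ≤ ε := by
  have key : ∀ j, ∀ c ∈ Finset.Ico (min 0 (m j)) (max 0 (m j)), ∀ᶠ δ in 𝓝[>] (0 : ℝ),
      ∀ x, bt (al x c) < δ → ‖h j x‖ ≤ ε := by
    intro j c hc
    have hK : IsCompact {x : X | ε ≤ ‖h j x‖} :=
      (isClosed_le continuous_const (by fun_prop)).isCompact
    obtain ⟨d, hd, hd'⟩ := hK.exists_forall_le' (f := fun x => bt (al x c)) (a := 0)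
      (continuous_bt.comp (continuous_al c)).continuousOn (fun x hx => by
        refine (bt_nonneg _).lt_of_ne fun e => ?_
        have := (hs j).2 x c (Finset.mem_Ico.1 hc) ((bt_eq_zero (norm_al_le x c)).1 e.symm)
        have hx' : ε ≤ ‖h j x‖ := hx
        rw [this, norm_zero] at hx'
        linarith)
    filter_upwards [Ioo_mem_nhdsGT hd] with δ hδ x hx
    by_contra hc'
    have := hd' x (not_le.1 hc').le
    linarith [hδ.2]
  have := (eventually_all.2 fun j => (Finset.eventually_all _).2 (key j)).and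
    (self_mem_nhdsWithin (a := (0 : ℝ)) (s := Set.Ioi 0))
  obtain ⟨δ, h1, h2⟩ := this.exists
  exact ⟨δ, h2, fun j x c hc => h1 j c (Finset.mem_Ico.2 hc) x⟩

lemma sum_xi_le {L : ℕ} {ξ : ℤ → C(X, ℝ)} (h1 : ∀ a x, (L : ℤ) < |a| → ξ a x = 0)
    (h2 : ∀ x, ∑ a ∈ Finset.Icc (-(L : ℤ)) L, ξ a (sh (-a) x) ^ 2 = 1) (m : ℤ) (x : X) :
    ∑ a ∈ Finset.Icc (-(L : ℤ)) L, ξ a (sh (-a) x) * ξ (a + m) (sh (-a) x) ≤ 1 := by
  have h3 : ∑ a ∈ Finset.Icc (-(L : ℤ)) L, ξ (a + m) (sh (-a) x) ^ 2 ≤ 1 := by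
    have e : ∑ a ∈ Finset.Icc (-(L : ℤ)) L, ξ (a + m) (sh (-a) x) ^ 2 =
        ∑ b ∈ (Finset.Icc (-(L : ℤ)) L).image (· + m), ξ b (sh (-b) (sh m x)) ^ 2 := by
      rw [Finset.sum_image fun a _ b _ hab => add_right_cancel hab]
      refine Finset.sum_congr rfl fun a _ => ?_
      rw [sh_sh]
      congr 3
      ring
    rw [e, ← Finset.sum_filter_ne_zero]
    refine le_of_le_of_eq (Finset.sum_le_sum_of_subset_of_nonneg (fun b hb => ?_)
      fun _ _ _ => sq_nonneg _) (h2 (sh m x))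
    have hb' := (Finset.mem_filter.1 hb).2
    by_contra hc
    rw [h1 b _ (by rw [Finset.mem_Icc, ← abs_le] at hc; exact not_le.1 hc)] at hb'
    simp at hb'
  have := Finset.sum_mul_sq_le_sq_mul_sq (Finset.Icc (-(L : ℤ)) L)
    (fun a => ξ a (sh (-a) x)) (fun a => ξ (a + m) (sh (-a) x))
  rw [h2, one_mul] at this
  exact (abs_le.1 ((sq_le_one_iff_abs_le_one _).1 (this.trans h3))).2

lemma star_Op_mul (k : ℕ) (g g' : C(X, ℝ)) (a b : ℤ) {s : R} (t : R) (hs : Low k s) :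
    star (Op k (cxf g) a bot s) * Op k (cxf g') b bot t =
      Op k ((cxf (g * g')).comp (shC (-a))) (b - a) s t := by
  rw [Op_star k _ a (low_bot k) hs, Op_mul _ _ _ _ _ _ _ _ _ (low_bot k), if_pos rfl]
  congr 1
  · ext x
    simp
  · ring

lemma core {ι : Type} [Fintype ι] (k : ℕ) (h : ι → C(X, ℂ)) (m : ι → ℤ) (s t : ι → R)
    (hs : ∀ j, Low k (s j) ∧ Low k (t j) ∧ Adm (h j) (m j) (s j) (t j)) {ε : ℝ} (hε : 0 < ε) :
    ∃ (n : ℕ) (ψ : AA →ₗ[ℂ] Matrix (Fin n) (Fin n) ℂ) (φ : Matrix (Fin n) (Fin n) ℂ →ₗ[ℂ] AA),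
      CP ψ ∧ CP φ ∧ (∀ a, ‖Matrix.toEuclideanCLM (𝕜 := ℂ) (ψ a)‖ ≤ ‖a‖) ∧
      (∀ M, ‖φ M‖ ≤ ‖Matrix.toEuclideanCLM (𝕜 := ℂ) M‖) ∧
      ∀ j (T : AA), (T : H →L[ℂ] H) = Op k (h j) (m j) (s j) (t j) → ‖φ (ψ T) - T‖ ≤ 2 * ε := by
  obtain ⟨δ, hδ, hδ'⟩ := exists_delta h m s t (fun j => (hs j).2.2) hε
  set C : ℝ := ∑ j, ‖h j‖ + 1 with hC
  have hC0 : 0 < C := by positivity
  have hCj : ∀ j x, ‖h j x‖ ≤ C := fun j x => by
    have := Finset.single_le_sum (f := fun j => ‖h j‖) (fun _ _ => norm_nonneg _)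
      (Finset.mem_univ j)
    linarith [(h j).norm_coe_le_norm x]
  obtain ⟨L, ξ, x0, x1, x2, x3, x4, x5⟩ :=
    weights (∑ j, (m j).natAbs) hδ (div_pos hε hC0)
  obtain ⟨F, v, v1, v2, v3⟩ := partition k L h m s t hs hε
  set W := Finset.Icc (-(L : ℤ)) L with hW
  set Q : Finset I := F ×ˢ (W ×ˢ Rk k) with hQ
  let g : I → C(X, ℝ) := fun q => v q.1 q.2.1 q.2.2 * ξ q.2.1
  let r : I → (H →L[ℂ] H) := fun q => Op k (cxf (g q)) q.2.1 bot q.2.2
  have hlow : ∀ q ∈ Q, Low k q.2.2 := fun q hq => by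
    simp only [hQ, Finset.mem_product, mem_Rk] at hq
    exact hq.2.2
  have hr : ∀ q ∈ Q, r q ∈ AA := fun q hq => by
    refine Ak_sub_AA (Op_mem_Ak (low_bot k) (hlow q hq) ⟨fun c l x => ?_, fun x c hc hx => ?_⟩)
    · simp [g, v1 _ _ _ _ _ _ (hlow q hq), x2, mul_assoc]
    · simp [g, x3 _ _ c hc hx]
  let e : Fin Q.card ≃ Q := Q.equivFin.symm
  have hsum : ∀ {M : Type} [AddCommMonoid M] (f : I → M), ∑ a, f (e a) = ∑ q ∈ Q, f q := by
    intro M _ f
    rw [← Finset.sum_coe_sort Q f]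
    exact e.sum_comp fun q => f q
  obtain ⟨ψ, p1, p2, p3⟩ := compress AA (fun a => (e a : I))
    (Subtype.val_injective.comp e.injective)
  have hone : ∑ q ∈ Q, star (r q) * r q = 1 := by
    rw [Finset.sum_congr rfl fun q hq => star_Op_mul k (g q) (g q) q.2.1 q.2.1 q.2.2 (hlow q hq),
      hQ, Finset.sum_product, Finset.sum_comm, Finset.sum_product, Finset.sum_comm,
      ← sum_Op_one k]
    refine Finset.sum_congr rfl fun u hu => ?_
    simp only [sub_self, ← Op_sum]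
    congr 1
    ext x
    have : ∀ a ∈ W, ∑ z ∈ F, (v z a u (sh (-a) x) * ξ a (sh (-a) x)) ^ 2 =
        ξ a (sh (-a) x) ^ 2 := fun a ha => by
      simp only [mul_pow, ← Finset.sum_mul]
      rw [v2 a u _ (abs_le.2 (Finset.mem_Icc.1 ha)) (mem_Rk.1 hu), one_mul]
    have h4 := x4 x
    rw [← Finset.sum_congr rfl this] at h4
    simp only [ContinuousMap.sum_apply, ContinuousMap.comp_apply, shC_apply, cxf_apply,
      g, ContinuousMap.one_apply, ← sq]
    exact_mod_cast h4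
  obtain ⟨φ, f1, f2, f3⟩ := expand AA ({()} : Finset Unit)
    (fun _ a => ⟨r (e a), hr _ (e a).2⟩) (by
      rw [Finset.sum_singleton]
      refine Subtype.ext ?_
      rw [AddSubmonoidClass.coe_finsetSum]
      exact (hsum fun q => star (r q) * r q).trans hone)
  refine ⟨_, ψ, φ, p2, f2, p3, f3, fun j T hT => ?_⟩
  obtain ⟨hs1, ht1, -⟩ := hs j
  let h' : C(X, ℂ) := ∑ z ∈ F, ∑ a ∈ W, h j (sh a z) •
    (cxf (g (z, a, s j) * g (z, a + m j, t j))).comp (shC (-a))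
  have main : ((φ (ψ T) : AA) : H →L[ℂ] H) = Op k h' (m j) (s j) (t j) := by
    rw [f1, Finset.sum_singleton, AddSubmonoidClass.coe_finsetSum]
    simp only [AddSubmonoidClass.coe_finsetSum, p1, hT]
    have e1 : ∀ q ∈ Q, ∑ b, E (Op k (h j) (m j) (s j) (t j)) q (e b) • (star (r q) * r (e b)) =
        if q.2.2 = s j then h j (sh q.2.1 q.1) • Op k ((cxf (g (q.1, q.2.1, s j) *
          g (q.1, q.2.1 + m j, t j))).comp (shC (-q.2.1))) (m j) (s j) (t j) else 0 := by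
      rintro ⟨z, a, u⟩ hq
      have hu : Low k u := hlow _ hq
      rw [hsum fun q' => E (Op k (h j) (m j) (s j) (t j)) (z, a, u) q' •
        (star (r (z, a, u)) * r q')]
      simp only [E_Op, low_eq_self hu, mv_of_low hu ht1, pt_of_low hu]
      by_cases hus : u = s j
      · subst hus
        simp only [true_and, if_true, ite_smul, zero_smul, Finset.sum_ite_eq]
        have e2 : star (r (z, a, s j)) * r (z, a + m j, t j) = Op k ((cxf (g (z, a, s j) *
            g (z, a + m j, t j))).comp (shC (-a))) (m j) (s j) (t j) := by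
          simpa using star_Op_mul k (g (z, a, s j)) (g (z, a + m j, t j)) a (a + m j) (t j) hs1
        split_ifs with hm
        · rw [e2]
        · have : g (z, a + m j, t j) = 0 := by
            ext x
            simp only [hQ, hW, Finset.mem_product, mem_Rk, Finset.mem_Icc, ← abs_le] at hq hm
            have : (L : ℤ) < |a + m j| := not_le.1 fun hc => hm ⟨hq.1, hc, ht1⟩
            simp [g, x1 _ _ this]
          have e3 : (cxf (g (z, a, s j) * g (z, a + m j, t j))).comp (shC (-a)) = 0 := by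
            ext x
            simp [this]
          rw [e3, Op_zero, smul_zero]
      · simp [hus]
    refine ((hsum fun q => ∑ b, E (Op k (h j) (m j) (s j) (t j)) q (e b) •
      (star (r q) * r (e b))).trans (Finset.sum_congr rfl e1)).trans ?_
    simp only [hQ, Finset.sum_product, Finset.sum_ite_eq', mem_Rk, hs1, if_true, h', Op_sum,
      Op_smul]
  have hn : ‖φ (ψ T) - T‖ = ‖Op k (h' - h j) (m j) (s j) (t j)‖ := by
    rw [Op_sub, ← main, ← hT]
    rfl
  rw [hn]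
  refine (norm_Op_le _ _ _ _ _).trans ((ContinuousMap.norm_le _ (by positivity)).2 fun x => ?_)
  set w : ℤ → ℝ := fun a => ξ a (sh (-a) x) * ξ (a + m j) (sh (-a) x) with hw
  have w0 : ∀ a, 0 ≤ w a := fun a => mul_nonneg (x0 _ _) (x0 _ _)
  have w1 : ∑ a ∈ W, w a ≤ 1 := sum_xi_le x1 x4 (m j) x
  have e4 : (h' - h j) x = ∑ a ∈ W, (w a : ℂ) * (∑ z ∈ F, h j (sh a z) *
      (v z a (s j) (sh (-a) x) : ℂ) * (v z (a + m j) (t j) (sh (-a) x) : ℂ) -
        h j (sh a (sh (-a) x))) - ((1 - ∑ a ∈ W, w a : ℝ) : ℂ) * h j x := by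
    simp only [sh_sh, add_neg_cancel, sh_zero, mul_sub, Finset.sum_sub_distrib, h',
      ContinuousMap.sub_apply, ContinuousMap.sum_apply, ContinuousMap.smul_apply,
      ContinuousMap.comp_apply, shC_apply, cxf_apply, ContinuousMap.mul_apply, g, smul_eq_mul,
      ← Finset.sum_mul]
    rw [Finset.sum_comm]
    have : ∀ a ∈ W, ∑ z ∈ F, h j (sh a z) * ((v z a (s j) (sh (-a) x) * ξ a (sh (-a) x) *
        (v z (a + m j) (t j) (sh (-a) x) * ξ (a + m j) (sh (-a) x)) : ℝ) : ℂ) =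
        (w a : ℂ) * ∑ z ∈ F, h j (sh a z) * (v z a (s j) (sh (-a) x) : ℂ) *
          (v z (a + m j) (t j) (sh (-a) x) : ℂ) := fun a _ => by
      rw [Finset.mul_sum]
      refine Finset.sum_congr rfl fun z _ => ?_
      simp only [hw]
      push_cast
      ring
    rw [Finset.sum_congr rfl this]
    push_cast
    ring
  rw [e4]
  refine (norm_sub_le _ _).trans ?_
  have b1 : ‖∑ a ∈ W, (w a : ℂ) * (∑ z ∈ F, h j (sh a z) *
      (v z a (s j) (sh (-a) x) : ℂ) * (v z (a + m j) (t j) (sh (-a) x) : ℂ) -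
        h j (sh a (sh (-a) x)))‖ ≤ ε := by
    refine (_root_.norm_sum_le _ _).trans ((Finset.sum_le_sum (g := fun a => w a * ε)
      fun a ha => ?_).trans ?_)
    · rw [norm_mul, Complex.norm_real, Real.norm_of_nonneg (w0 a)]
      by_cases hm : |a + m j| ≤ (L : ℤ)
      · exact mul_le_mul_of_nonneg_left
          (v3 j a _ (abs_le.2 (Finset.mem_Icc.1 ha)) hm) (w0 a)
      · simp [hw, x1 _ _ (not_le.1 hm)]
    · rw [← Finset.sum_mul]
      nlinarith
  have b2 : ‖((1 - ∑ a ∈ W, w a : ℝ) : ℂ) * h j x‖ ≤ ε := by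
    rw [norm_mul, Complex.norm_real, Real.norm_of_nonneg (by linarith)]
    have w2 : 0 ≤ ∑ a ∈ W, w a := Finset.sum_nonneg fun a _ => w0 a
    by_cases hb : ∀ c, Btw 0 (m j) c → δ ≤ bt (al x c)
    · have hm : |m j| ≤ ((∑ j, (m j).natAbs : ℕ) : ℤ) := by
        rw [Int.abs_eq_natAbs]
        exact_mod_cast Finset.single_le_sum (f := fun j => (m j).natAbs)
          (fun _ _ => Nat.zero_le _) (Finset.mem_univ j)
      have := x5 (m j) x hm hb
      calc (1 - ∑ a ∈ W, w a) * ‖h j x‖ ≤ ε / C * C :=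
            mul_le_mul (by linarith) (hCj j x) (norm_nonneg _) (by positivity)
        _ = ε := by field_simp
    · push Not at hb
      obtain ⟨c, hc, hc'⟩ := hb
      have := hδ' j x c hc hc'
      nlinarith [norm_nonneg (h j x)]
  linarith

theorem nuclear_AA : Nuclear AA := by
  intro F ε hε
  have h3 : 0 < ε / 3 := by positivity
  choose k T hT hT' using fun a : AA => approx a.2 h3
  set K := ∑ a ∈ F, k a with hK
  have hTK : ∀ a : F, T a ∈ Ak K := fun a =>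
    Ak_mono (Finset.single_le_sum (f := k) (fun _ _ => Nat.zero_le _) a.2) (hT a)
  choose n h m s t hs hsum using fun a : F => Ak_eq_sum (hTK a)
  set N : ℝ := ∑ a : F, (n a : ℝ) + 1 with hN
  have hN0 : 0 < N := by positivity
  obtain ⟨d, ψ, φ, p1, p2, p3, p4, p5⟩ := core (ι := Σ a : F, Fin (n a)) K
    (fun j => h j.1 j.2) (fun j => m j.1 j.2) (fun j => s j.1 j.2) (fun j => t j.1 j.2)
    (fun j => hs j.1 j.2) (ε := ε / 6 / N) (by positivity)
  refine ⟨d, ψ, φ, p1, p2, p3, p4, fun a ha => ?_⟩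
  let a' : F := ⟨a, ha⟩
  let O : Fin (n a') → AA := fun j => ⟨Op K (h a' j) (m a' j) (s a' j) (t a' j),
    Ak_sub_AA (Op_mem_Ak (hs a' j).1 (hs a' j).2.1 (hs a' j).2.2)⟩
  have e1 : ‖a - ∑ j, O j‖ < ε / 3 := by
    have : ((∑ j, O j : AA) : H →L[ℂ] H) = T a := by
      rw [AddSubmonoidClass.coe_finsetSum]
      exact (hsum a').symm
    have h' := hT' a
    rw [← this] at h'
    exact h'
  have e2 : ‖φ (ψ (∑ j, O j)) - ∑ j, O j‖ ≤ ε / 3 := by
    rw [map_sum, map_sum, ← Finset.sum_sub_distrib]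
    refine (_root_.norm_sum_le _ _).trans ((Finset.sum_le_sum (g := fun _ => 2 * (ε / 6 / N))
      fun j _ => p5 ⟨a', j⟩ (O j) rfl).trans ?_)
    have : (n a' : ℝ) ≤ N := by
      have := Finset.single_le_sum (f := fun a : F => (n a : ℝ)) (fun _ _ => Nat.cast_nonneg _)
        (Finset.mem_univ a')
      linarith
    rw [Finset.sum_const, Finset.card_univ, Fintype.card_fin, nsmul_eq_mul]
    calc (n a' : ℝ) * (2 * (ε / 6 / N)) ≤ N * (2 * (ε / 6 / N)) := by gcongr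
      _ = ε / 3 := by field_simp; norm_num
  have e3 : ‖φ (ψ (a - ∑ j, O j))‖ < ε / 3 := ((p4 _).trans (p3 _)).trans_lt e1
  calc ‖φ (ψ a) - a‖ = ‖φ (ψ (a - ∑ j, O j)) + (φ (ψ (∑ j, O j)) - ∑ j, O j) -
        (a - ∑ j, O j)‖ := by
        rw [map_sub, map_sub]
        congr 1
        abel
    _ ≤ ‖φ (ψ (a - ∑ j, O j))‖ + ‖φ (ψ (∑ j, O j)) - ∑ j, O j‖ + ‖a - ∑ j, O j‖ :=
        (norm_sub_le _ _).trans (by gcongr; exact norm_add_le _ _)
    _ < ε := by linarith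

end Pool.Agent.Lib.MP_f09365_an.M
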