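import Pool.Agent.Lib.MP_f09365_an.M.Idx

open scoped Classical
open Topology Filter

noncomputable section

namespace Pool.Agent.Lib.MP_f09365_an.M

lemma sum_pull_le {ω : I → ℂ} {θ : I → I} {C : ℝ} (hC : 0 ≤ C) (hω : ∀ i, ‖ω i‖ ≤ C)
    (hθ : Set.InjOn θ {i | ω i ≠ 0}) (ξ : H) (F : Finset I) :
    ∑ i ∈ F, ‖ω i * ξ (θ i)‖ ^ (2 : ENNReal).toReal ≤ (C * ‖ξ‖) ^ (2 : ENNReal).toReal := by
  have h2 : (0 : ℝ) < (2 : ENNReal).toReal := by simp
  have h1 : ∑ i ∈ F, ‖ω i * ξ (θ i)‖ ^ (2 : ENNReal).toReal =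
      ∑ i ∈ F.filter (fun i => ω i ≠ 0), ‖ω i * ξ (θ i)‖ ^ (2 : ENNReal).toReal := by
    rw [Finset.sum_filter]
    refine Finset.sum_congr rfl fun i _ => ?_
    split_ifs with h
    · rfl
    · simp [not_not.1 h]
  rw [h1, Real.mul_rpow hC (norm_nonneg _)]
  calc ∑ i ∈ F.filter (fun i => ω i ≠ 0), ‖ω i * ξ (θ i)‖ ^ (2 : ENNReal).toReal
      ≤ ∑ i ∈ F.filter (fun i => ω i ≠ 0),
          C ^ (2 : ENNReal).toReal * ‖ξ (θ i)‖ ^ (2 : ENNReal).toReal := by
        refine Finset.sum_le_sum fun i _ => ?_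
        rw [← Real.mul_rpow hC (norm_nonneg _), norm_mul]
        exact Real.rpow_le_rpow (by positivity)
          (mul_le_mul_of_nonneg_right (hω i) (norm_nonneg _)) h2.le
    _ = C ^ (2 : ENNReal).toReal * ∑ j ∈ (F.filter (fun i => ω i ≠ 0)).image θ,
          ‖ξ j‖ ^ (2 : ENNReal).toReal := by
        rw [Finset.sum_image, Finset.mul_sum]
        intro a ha b hb hab
        exact hθ (Finset.mem_filter.1 ha).2 (Finset.mem_filter.1 hb).2 hab
    _ ≤ _ := mul_le_mul_of_nonneg_left (lp.sum_rpow_le_norm_rpow h2 ξ _) (by positivity)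

lemma exists_pull {ω : I → ℂ} {θ : I → I} {C : ℝ} (hC : 0 ≤ C) (hω : ∀ i, ‖ω i‖ ≤ C)
    (hθ : Set.InjOn θ {i | ω i ≠ 0}) :
    ∃ T : H →L[ℂ] H, ∀ ξ i, T ξ i = ω i * ξ (θ i) := by
  have h2 : (0 : ℝ) < (2 : ENNReal).toReal := by simp
  let T : H →ₗ[ℂ] H :=
    { toFun := fun ξ => ⟨fun i => ω i * ξ (θ i), memℓp_gen' (sum_pull_le hC hω hθ ξ)⟩
      map_add' := fun ξ η => by
        ext i
        change ω i * (ξ (θ i) + η (θ i)) = ω i * ξ (θ i) + ω i * η (θ i)
        ring
      map_smul' := fun c ξ => by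
        ext i
        change ω i * (c * ξ (θ i)) = c * (ω i * ξ (θ i))
        ring }
  refine ⟨T.mkContinuous C fun ξ => ?_, fun ξ i => rfl⟩
  exact lp.norm_le_of_forall_sum_le h2 (by positivity) (sum_pull_le hC hω hθ ξ)

lemma mv_back {k : ℕ} {m : ℤ} {s t : R} {i : I} (h : low k i.2.2 = s) :
    mv k (-m) s (mv k m t i) = i := by
  rw [mv_mv, add_neg_cancel, ← h, mv_zero]

lemma norm_wt_le (k : ℕ) (h : C(X, ℂ)) (s : R) (i : I) :
    ‖if low k i.2.2 = s then h (pt k i) else 0‖ ≤ ‖h‖ := by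
  split_ifs
  · exact h.norm_coe_le_norm _
  · simp

lemma injOn_mv (k : ℕ) (h : C(X, ℂ)) (m : ℤ) (s t : R) :
    Set.InjOn (mv k m t) {i | (if low k i.2.2 = s then h (pt k i) else 0) ≠ 0} := by
  intro i hi j hj hij
  have h1 : low k i.2.2 = s := by by_contra hc; exact hi (if_neg hc)
  have h2 : low k j.2.2 = s := by by_contra hc; exact hj (if_neg hc)
  rw [← mv_back (m := m) (t := t) h1, hij, mv_back h2]

lemma Op_apply (k : ℕ) (h : C(X, ℂ)) (m : ℤ) (s t : R) (ξ : H) (i : I) :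
    Op k h m s t ξ i = (if low k i.2.2 = s then h (pt k i) else 0) * ξ (mv k m t i) := by
  have e := exists_pull (norm_nonneg h) (norm_wt_le k h s) (injOn_mv k h m s t)
  unfold Op opOf
  rw [dif_pos e]
  exact e.choose_spec ξ i

lemma op_ext {T T' : H →L[ℂ] H} (h : ∀ ξ i, T ξ i = T' ξ i) : T = T' := by
  refine ContinuousLinearMap.ext fun ξ => lp.ext (funext fun i => h ξ i)

lemma norm_Op_le (k : ℕ) (h : C(X, ℂ)) (m : ℤ) (s t : R) : ‖Op k h m s t‖ ≤ ‖h‖ := by
  have h2 : (0 : ℝ) < (2 : ENNReal).toReal := by simp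
  refine ContinuousLinearMap.opNorm_le_bound _ (norm_nonneg h) fun ξ => ?_
  refine lp.norm_le_of_forall_sum_le h2 (by positivity) fun F => ?_
  simp only [Op_apply]
  exact sum_pull_le (norm_nonneg h) (norm_wt_le k h s) (injOn_mv k h m s t) ξ F

lemma add_apply' (T T' : H →L[ℂ] H) (ξ : H) (i : I) : (T + T') ξ i = T ξ i + T' ξ i := rfl
lemma sub_apply' (T T' : H →L[ℂ] H) (ξ : H) (i : I) : (T - T') ξ i = T ξ i - T' ξ i := rfl
lemma smul_apply' (c : ℂ) (T : H →L[ℂ] H) (ξ : H) (i : I) : (c • T) ξ i = c * T ξ i := rfl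
lemma zero_apply' (ξ : H) (i : I) : (0 : H →L[ℂ] H) ξ i = 0 := rfl
lemma mul_apply' (T T' : H →L[ℂ] H) (ξ : H) (i : I) : (T * T') ξ i = T (T' ξ) i := rfl

lemma sum_apply' {ι : Type*} (F : Finset ι) (T : ι → (H →L[ℂ] H)) (ξ : H) (i : I) :
    (∑ j ∈ F, T j) ξ i = ∑ j ∈ F, T j ξ i := by
  induction F using Finset.induction_on with
  | empty => simp
  | insert a F ha ih => rw [Finset.sum_insert ha, Finset.sum_insert ha, add_apply', ih]

lemma Op_add (k : ℕ) (h h' : C(X, ℂ)) (m : ℤ) (s t : R) :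
    Op k (h + h') m s t = Op k h m s t + Op k h' m s t := by
  refine op_ext fun ξ i => ?_
  simp only [add_apply', Op_apply, ContinuousMap.add_apply]
  split_ifs <;> ring

lemma Op_sub (k : ℕ) (h h' : C(X, ℂ)) (m : ℤ) (s t : R) :
    Op k (h - h') m s t = Op k h m s t - Op k h' m s t := by
  refine op_ext fun ξ i => ?_
  simp only [sub_apply', Op_apply, ContinuousMap.sub_apply]
  split_ifs <;> ring

lemma Op_smul (k : ℕ) (c : ℂ) (h : C(X, ℂ)) (m : ℤ) (s t : R) :
    Op k (c • h) m s t = c • Op k h m s t := by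
  refine op_ext fun ξ i => ?_
  simp only [smul_apply', Op_apply, ContinuousMap.smul_apply, smul_eq_mul]
  split_ifs <;> ring

lemma Op_zero (k : ℕ) (m : ℤ) (s t : R) : Op k 0 m s t = 0 := by
  refine op_ext fun ξ i => ?_
  simp [Op_apply]

lemma Op_sum {ι : Type*} (F : Finset ι) (k : ℕ) (h : ι → C(X, ℂ)) (m : ℤ) (s t : R) :
    Op k (∑ j ∈ F, h j) m s t = ∑ j ∈ F, Op k (h j) m s t := by
  induction F using Finset.induction_on with
  | empty => simp [Op_zero]
  | insert a F ha ih => rw [Finset.sum_insert ha, Finset.sum_insert ha, Op_add, ih]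

lemma single_val (i j : I) : (lp.single 2 i (1 : ℂ) : H) j = if j = i then 1 else 0 := by
  rw [lp.single_apply, Pi.single_apply]

lemma E_Op (k : ℕ) (h : C(X, ℂ)) (m : ℤ) (s t : R) (i i' : I) :
    E (Op k h m s t) i i' =
      if low k i.2.2 = s ∧ mv k m t i = i' then h (pt k i) else 0 := by
  unfold E
  rw [Op_apply, single_val]
  by_cases h1 : low k i.2.2 = s <;> by_cases h2 : mv k m t i = i' <;> simp [h1, h2]

lemma inner_single (i : I) (ξ : H) : inner ℂ (lp.single 2 i (1 : ℂ) : H) ξ = ξ i := by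
  rw [lp.inner_single_left]; simp

lemma E_eq_inner (T : H →L[ℂ] H) (i i' : I) :
    E T i i' = inner ℂ (lp.single 2 i (1 : ℂ) : H) (T (lp.single 2 i' 1)) :=
  (inner_single _ _).symm

lemma norm_single_one (i : I) : ‖(lp.single 2 i (1 : ℂ) : H)‖ = 1 := by
  rw [lp.norm_single (by norm_num)]; simp

lemma E_ext {T T' : H →L[ℂ] H} (h : ∀ i i', E T i i' = E T' i i') : T = T' := by
  refine lp.ext_continuousLinearMap (by norm_num) fun i' => ?_
  refine ContinuousLinearMap.ext_ring ?_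
  exact lp.ext (funext fun i => h i i')

lemma norm_E_le (T : H →L[ℂ] H) (i i' : I) : ‖E T i i'‖ ≤ ‖T‖ := by
  refine (lp.norm_apply_le_norm (by norm_num) _ i).trans ?_
  simpa [norm_single_one] using T.le_opNorm (lp.single 2 i' 1)

lemma E_star (T : H →L[ℂ] H) (i i' : I) :
    E (star T) i i' = (starRingEnd ℂ) (E T i' i) := by
  rw [E_eq_inner, E_eq_inner, ContinuousLinearMap.star_eq_adjoint,
    ContinuousLinearMap.adjoint_inner_right, inner_conj_symm]

lemma E_add (T T' : H →L[ℂ] H) (i i' : I) : E (T + T') i i' = E T i i' + E T' i i' := rfl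
lemma E_sub (T T' : H →L[ℂ] H) (i i' : I) : E (T - T') i i' = E T i i' - E T' i i' := rfl
lemma E_smul (c : ℂ) (T : H →L[ℂ] H) (i i' : I) : E (c • T) i i' = c * E T i i' := rfl
lemma E_zero (i i' : I) : E 0 i i' = 0 := rfl
lemma E_one (i i' : I) : E 1 i i' = if i = i' then 1 else 0 := single_val i' i

lemma E_sum {ι : Type*} (F : Finset ι) (T : ι → (H →L[ℂ] H)) (i i' : I) :
    E (∑ j ∈ F, T j) i i' = ∑ j ∈ F, E (T j) i i' := sum_apply' F T _ i

lemma continuous_E (i i' : I) : Continuous fun T => E T i i' := by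
  simp only [E_eq_inner]
  fun_prop

/-- A row supported in a finite set. -/
lemma apply_eq_sum (T : H →L[ℂ] H) (i : I) (F : Finset I) (hF : ∀ j ∉ F, E T i j = 0) (η : H) :
    T η i = ∑ j ∈ F, E T i j * η j := by
  have h1 : star T (lp.single 2 i 1) =
      ∑ j ∈ F, (starRingEnd ℂ) (E T i j) • (lp.single 2 j (1 : ℂ) : H) := by
    refine lp.ext (funext fun j => ?_)
    have : star T (lp.single 2 i 1) j = (starRingEnd ℂ) (E T i j) := E_star T j i
    rw [this, ← inner_single j, inner_sum]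
    simp only [inner_smul_right, inner_single, single_val]
    by_cases hj : j ∈ F
    · rw [Finset.sum_eq_single j] <;> simp +contextual [hj, eq_comm]
    · rw [hF j hj, Finset.sum_eq_zero]
      · simp
      · intro b hb
        rw [if_neg (fun e : j = b => hj (e ▸ hb)), mul_zero]
  rw [← inner_single, ← ContinuousLinearMap.adjoint_inner_left,
    ← ContinuousLinearMap.star_eq_adjoint, h1, sum_inner]
  simp only [inner_smul_left, inner_single, RingHomCompTriple.comp_apply, RingHom.id_apply]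

/-- Products, when a row of the first factor is supported in a finite set. -/
lemma E_mul (T T' : H →L[ℂ] H) (i i' : I) (F : Finset I) (hF : ∀ j ∉ F, E T i j = 0) :
    E (T * T') i i' = ∑ j ∈ F, E T i j * E T' j i' :=
  apply_eq_sum T i F hF _

lemma Op_mul (k : ℕ) (h h' : C(X, ℂ)) (m m' : ℤ) (s t t' r : R) (ht : Low k t) :
    Op k h m s t * Op k h' m' t' r =
      if t = t' then Op k (h * h'.comp (shC m)) (m + m') s r else 0 := by
  refine op_ext fun ξ i => ?_
  rw [mul_apply', Op_apply, Op_apply, low_mv, low_eq_self ht, pt_mv, mv_mv]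
  by_cases e : t = t'
  · rw [if_pos e, if_pos e, Op_apply]
    split_ifs
    · simp [mul_assoc]
    · simp
  · rw [if_neg e, if_neg e, zero_apply']
    simp

lemma Op_star (k : ℕ) (h : C(X, ℂ)) (m : ℤ) {s t : R} (hs : Low k s) (ht : Low k t) :
    star (Op k h m s t) = Op k (star (h.comp (shC (-m)))) (-m) t s := by
  refine E_ext fun i i' => ?_
  rw [E_star, E_Op, E_Op]
  by_cases e : low k i'.2.2 = s ∧ mv k m t i' = i
  · obtain ⟨e1, rfl⟩ := e
    rw [if_pos ⟨e1, rfl⟩, if_pos ⟨by rw [low_mv, low_eq_self ht], mv_back e1⟩, pt_mv]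
    simp [sh_sh]
  · rw [if_neg e, if_neg, map_zero]
    rintro ⟨e1, rfl⟩
    refine e ⟨by rw [low_mv, low_eq_self hs], ?_⟩
    simpa using mv_back (m := -m) (t := s) e1

lemma sum_Op_one (k : ℕ) : ∑ s ∈ Rk k, Op k 1 0 s s = 1 := by
  refine op_ext fun ξ i => ?_
  rw [sum_apply', Finset.sum_eq_single (low k i.2.2)]
  · rw [Op_apply, if_pos rfl, mv_zero]
    simp
  · intro b _ hb
    rw [Op_apply, if_neg (Ne.symm hb), zero_mul]
  · intro hn
    exact absurd (mem_Rk.2 (low_low k _)) hn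

lemma low_f_self (k : ℕ) (s : R) : (low (k + 1) s).f k = s.f k := by
  simp [low]

lemma upd_f_self (s : R) (l : ℕ) (o : Option (ZMod (nn l))) : (upd s l o).f l = o := by
  simp [upd]

lemma low_succ_eq {k : ℕ} {r : R} {w : ZMod (nn k)} (h : r.f k = some w) :
    low (k + 1) r = upd (low k r) k (some w) := by
  refine R.ext (funext fun l => ?_)
  by_cases e : l = k
  · subst e
    rw [low_f_self, upd_f_self, h]
  · simp only [low, upd, Function.update_of_ne e]
    have : l < k + 1 ↔ l < k := by omega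
    simp only [this]

lemma Op_succ (k : ℕ) (h : C(X, ℂ)) (m : ℤ) {s t : R} (hs : Low k s) (ht : Low k t) :
    Op k h m s t = Op (k + 1) h m s t + ∑ w : ZMod (nn k),
      Op (k + 1) (ContinuousMap.const X (h (shz k w))) 0 (upd s k (some w))
        (upd t k (some (w + (m : ZMod (nn k))))) := by
  refine op_ext fun ξ i => ?_
  rw [add_apply', sum_apply']
  simp only [Op_apply]
  rcases hi : i.2.2.f k with _ | w
  · obtain ⟨e1, e2, e3⟩ := of_none ht m i hi
    rw [e1, e2, e3, Finset.sum_eq_zero, add_zero]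
    intro w _
    rw [if_neg, zero_mul]
    intro e
    have := congrArg (fun r : R => r.f k) e
    simp [low_f_self, upd_f_self, hi] at this
  · have n1 : low (k + 1) i.2.2 ≠ s := by
      intro e
      have := congrArg (fun r : R => r.f k) e
      simp [low_f_self, hi, hs k le_rfl] at this
    rw [if_neg n1, zero_mul, zero_add, Finset.sum_eq_single w]
    · by_cases e : low k i.2.2 = s
      · have e' : low (k + 1) i.2.2 = upd s k (some w) := by rw [low_succ_eq hi, e]
        obtain ⟨-, e2, e3⟩ := of_low_upd hs ht le_rfl w m i e'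
        rw [if_pos e, if_pos e', e2, e3]
        simp
      · rw [if_neg e, if_neg, zero_mul, zero_mul]
        intro e'
        exact e (of_low_upd hs ht le_rfl w m i e').1
    · intro b _ hb
      rw [if_neg, zero_mul]
      intro e
      have := congrArg (fun r : R => r.f k) e
      simp only [low_f_self, upd_f_self, hi, Option.some.injEq] at this
      exact hb this.symm
    · simp

lemma sum_norm_sq {ι : Type*} (F : Finset ι) (y : ι → (H →L[ℂ] H))
    (hy : ∑ j ∈ F, star (y j) * y j = 1) (ζ : H) : ∑ j ∈ F, ‖y j ζ‖ ^ 2 = ‖ζ‖ ^ 2 := by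
  have h1 : inner ℂ ζ ((∑ j ∈ F, star (y j) * y j) ζ) = inner ℂ ζ ζ := by rw [hy]; rfl
  rw [_root_.sum_apply, inner_sum] at h1
  simp only [_root_.mul_apply_eq_comp, ContinuousLinearMap.star_eq_adjoint,
    ContinuousLinearMap.adjoint_inner_right, inner_self_eq_norm_sq_to_K] at h1
  exact_mod_cast h1

/-- Cauchy-Schwarz for averaging maps. -/
lemma norm_sum_le {ι : Type*} (F : Finset ι) (x y : ι → (H →L[ℂ] H)) (b : H →L[ℂ] H)
    (hx : ∑ j ∈ F, x j * star (x j) = 1) (hy : ∑ j ∈ F, star (y j) * y j = 1) :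
    ‖∑ j ∈ F, x j * b * y j‖ ≤ ‖b‖ := by
  refine ContinuousLinearMap.opNorm_le_bound _ (norm_nonneg _) fun ζ => ?_
  set η := (∑ j ∈ F, x j * b * y j) ζ with hη
  have h1 : ∑ j ∈ F, ‖star (x j) η‖ ^ 2 = ‖η‖ ^ 2 :=
    sum_norm_sq F (fun j => star (x j)) (by simpa using hx) η
  have h2 := sum_norm_sq F y hy ζ
  have h3 : ‖η‖ ^ 2 ≤ ‖b‖ * ∑ j ∈ F, ‖star (x j) η‖ * ‖y j ζ‖ := by
    have : (inner ℂ η η : ℂ) = ∑ j ∈ F, inner ℂ (star (x j) η) (b (y j ζ)) := by
      conv_lhs => rw [hη]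
      nth_rewrite 2 [_root_.sum_apply]
      rw [inner_sum, ← hη]
      refine Finset.sum_congr rfl fun j _ => ?_
      rw [ContinuousLinearMap.star_eq_adjoint, ContinuousLinearMap.adjoint_inner_left]
      rfl
    calc ‖η‖ ^ 2 = ‖(inner ℂ η η : ℂ)‖ := by simp [inner_self_eq_norm_sq_to_K]
      _ ≤ ∑ j ∈ F, ‖(inner ℂ (star (x j) η) (b (y j ζ)) : ℂ)‖ := by
        rw [this]; exact _root_.norm_sum_le _ _
      _ ≤ ∑ j ∈ F, ‖b‖ * (‖star (x j) η‖ * ‖y j ζ‖) := by
        refine Finset.sum_le_sum fun j _ => (norm_inner_le_norm _ _).trans ?_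
        have := b.le_opNorm (y j ζ)
        nlinarith [norm_nonneg (star (x j) η)]
      _ = _ := by rw [Finset.mul_sum]
  have h4 : (∑ j ∈ F, ‖star (x j) η‖ * ‖y j ζ‖) ≤ ‖η‖ * ‖ζ‖ := by
    have := Finset.sum_mul_sq_le_sq_mul_sq F (fun j => ‖star (x j) η‖) (fun j => ‖y j ζ‖)
    rw [h1, h2, ← mul_pow] at this
    exact (pow_le_pow_iff_left₀ (by positivity) (by positivity) two_ne_zero).1 this
  rcases (norm_nonneg η).eq_or_lt with h0 | h0
  · rw [← h0]; positivity
  · have := h3.trans (mul_le_mul_of_nonneg_left h4 (norm_nonneg b))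
    nlinarith

end Pool.Agent.Lib.MP_f09365_an.M
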