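import Pool.Agent.Lib.MP_f09365_an.M.Alg
import Pool.Agent.Lib.MP_f09365_an.N.Path7

open scoped Classical
open Topology Filter

noncomputable section

namespace Pool.Agent.Lib.MP_f09365_an.M

lemma E_Op_low {k : ℕ} (h : C(X, ℂ)) (m : ℤ) (s0 : R) {t0 s : R} (ht0 : Low k t0) (hs : Low k s)
    (x : X) (a b : ℤ) (t : R) :
    E (Op k h m s0 t0) (x, a, s) (x, b, t) =
      if s = s0 ∧ a + m = b ∧ t0 = t then h (sh a x) else 0 := by
  rw [E_Op, mv_of_low hs ht0, pt_of_low hs]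
  simp only [low_eq_self hs, Prod.mk.injEq, true_and]

lemma E_Op_high {k : ℕ} (h : C(X, ℂ)) (m : ℤ) (s0 t0 : R) {s : R} (hs : ¬Low k s) :
    ∃ (s' : R) (z : X), ¬Low k s' ∧ (∀ l, IsTop s' l ↔ IsTop s l) ∧
      ∀ (x : X) (a b : ℤ) (t : R), E (Op k h m s0 t0) (x, a, s) (x, b, t) =
        if low k s = s0 ∧ a = b ∧ s' = t then h z else 0 := by
  obtain ⟨s', z, h1, h2, h3⟩ := of_not_low hs m t0
  refine ⟨s', z, h1, h2, fun x a b t => ?_⟩
  rw [E_Op, (h3 x a).1, (h3 x a).2]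
  simp only [Prod.mk.injEq, true_and]

lemma Ak_ind {p : (H →L[ℂ] H) → Prop} {k : ℕ} (h0 : p 0) (hadd : ∀ T T', p T → p T' → p (T + T'))
    (hsmul : ∀ (c : ℂ) T, p T → p (c • T))
    (hgen : ∀ h m s t, Low k s → Low k t → Adm h m s t → p (Op k h m s t))
    {T : H →L[ℂ] H} (hT : T ∈ Ak k) : p T := by
  induction hT using Submodule.span_induction with
  | mem T hT =>
    obtain ⟨h, m, s, t, h1, h2, h3, rfl⟩ := hT
    exact hgen h m s t h1 h2 h3
  | zero => exact h0
  | add T T' _ _ h1 h2 => exact hadd T T' h1 h2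
  | smul c T _ h1 => exact hsmul c T h1

lemma AA_ind {p : (H →L[ℂ] H) → Prop} (hc : IsClosed {T | p T}) (h0 : p 0)
    (hadd : ∀ T T', p T → p T' → p (T + T')) (hsmul : ∀ (c : ℂ) T, p T → p (c • T))
    (hgen : ∀ k h m s t, Low k s → Low k t → Adm h m s t → p (Op k h m s t))
    {T : H →L[ℂ] H} (hT : T ∈ AA) : p T := by
  have : T ∈ closure {T | p T} := by
    rw [Metric.mem_closure_iff]
    intro ε hε
    obtain ⟨k, T', h1, h2⟩ := approx hT hε
    exact ⟨T', Ak_ind h0 hadd hsmul (hgen k) h1, by rwa [dist_eq_norm]⟩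
  exact hc.closure_subset this

lemma P1 {T : H →L[ℂ] H} (h : T ∈ AA) (a b : ℤ) (s t : R) :
    Continuous fun x : X => E T (x, a, s) (x, b, t) := by
  have key : ∀ k, ∀ T' ∈ Ak k, Continuous fun x : X => E T' (x, a, s) (x, b, t) := by
    intro k T' hT'
    refine Ak_ind (p := fun T' => Continuous fun x : X => E T' (x, a, s) (x, b, t)) ?_ ?_ ?_ ?_ hT'
    · simp only [E_zero]
      exact continuous_const
    · intro T1 T2 h1 h2
      simp only [E_add]
      exact h1.add h2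
    · intro c T1 h1
      simp only [E_smul]
      exact continuous_const.mul h1
    · intro g m s0 t0 _ ht0 _
      by_cases hs : Low k s
      · simp only [E_Op_low g m s0 ht0 hs]
        split_ifs
        · exact g.continuous.comp (continuous_sh a)
        · exact continuous_const
      · obtain ⟨s', z, -, -, h3⟩ := E_Op_high g m s0 t0 hs
        simp only [h3]
        exact continuous_const
  refine continuous_of_uniform_approx_of_continuous fun u hu => ?_
  obtain ⟨ε, hε, hu'⟩ := Metric.mem_uniformity_dist.mp hu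
  obtain ⟨k, T', h1, h2⟩ := approx h hε
  refine ⟨_, key k T' h1, fun x => hu' ?_⟩
  rw [dist_eq_norm, ← E_sub]
  exact (norm_E_le _ _ _).trans_lt h2

lemma P2 {T : H →L[ℂ] H} (h : T ∈ AA) (a b : ℤ) (s t : R) (c : ℤ) (l : ℕ) (x : X) :
    E T (flp c l x, a, s) (flp c l x, b, t) =
      (sg c l a s : ℂ) * (sg c l b t : ℂ) * E T (x, a, s) (x, b, t) := by
  refine AA_ind (p := fun T => E T (flp c l x, a, s) (flp c l x, b, t) =
      (sg c l a s : ℂ) * (sg c l b t : ℂ) * E T (x, a, s) (x, b, t)) ?_ ?_ ?_ ?_ ?_ h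
  · exact isClosed_eq (continuous_E _ _) (continuous_const.mul (continuous_E _ _))
  · simp only [E_zero, mul_zero]
  · intro T1 T2 h1 h2
    rw [E_add, E_add, h1, h2, mul_add]
  · intro z T1 h1
    rw [E_smul, E_smul, h1]
    ring
  · intro k g m s0 t0 _ ht0 hg
    by_cases hs : Low k s
    · rw [E_Op_low g m s0 ht0 hs, E_Op_low g m s0 ht0 hs]
      split_ifs with h1
      · obtain ⟨rfl, rfl, rfl⟩ := h1
        rw [sh_flp, hg.1, sg_sub, sg_sub, zero_add, add_comm m a]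
      · rw [mul_zero]
    · obtain ⟨s', z, -, h2, h3⟩ := E_Op_high g m s0 t0 hs
      rw [h3, h3]
      split_ifs with h1
      · obtain ⟨-, rfl, rfl⟩ := h1
        have e1 : sg c l a s' = sg c l a s := by simp only [sg, h2]
        rw [e1, ← Complex.ofReal_mul, sg_mul_self, Complex.ofReal_one, one_mul]
      · rw [mul_zero]

lemma P3 {T : H →L[ℂ] H} (h : T ∈ AA) {a b c : ℤ} (s t : R) {x : X} (hc : Btw a b c)
    (hx : ‖al x c‖ = 1) : E T (x, a, s) (x, b, t) = 0 := by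
  refine AA_ind (p := fun T => E T (x, a, s) (x, b, t) = 0) ?_ ?_ ?_ ?_ ?_ h
  · exact isClosed_eq (continuous_E _ _) continuous_const
  · exact E_zero _ _
  · intro T1 T2 h1 h2
    rw [E_add, h1, h2, add_zero]
  · intro z T1 h1
    rw [E_smul, h1, mul_zero]
  · intro k g m s0 t0 _ ht0 hg
    by_cases hs : Low k s
    · rw [E_Op_low g m s0 ht0 hs]
      split_ifs with h1
      · obtain ⟨-, rfl, -⟩ := h1
        refine hg.2 _ (c - a) ?_ (by rw [al_sh, sub_add_cancel, hx])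
        unfold Btw at hc ⊢
        omega
      · rfl
    · obtain ⟨s', z, -, -, h3⟩ := E_Op_high g m s0 t0 hs
      rw [h3]
      split_ifs with h1
      · obtain ⟨-, rfl, -⟩ := h1
        unfold Btw at hc
        omega
      · rfl

lemma P4 {T : H →L[ℂ] H} (h : T ∈ AA) {i i' : I} (hx : i.1 ≠ i'.1) : E T i i' = 0 := by
  refine AA_ind (p := fun T => E T i i' = 0) ?_ ?_ ?_ ?_ ?_ h
  · exact isClosed_eq (continuous_E _ _) continuous_const
  · exact E_zero _ _
  · intro T1 T2 h1 h2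
    rw [E_add, h1, h2, add_zero]
  · intro z T1 h1
    rw [E_smul, h1, mul_zero]
  · intro k g m s0 t0 _ _ _
    rw [E_Op, if_neg]
    rintro ⟨-, h1⟩
    exact hx (by rw [← h1, fst_mv])

lemma P5 {k : ℕ} {T : H →L[ℂ] H} (h : T ∈ Ak k) {i i' : I} (hi : ¬Low k i.2.2)
    (hi' : Low k i'.2.2) : E T i i' = 0 := by
  refine Ak_ind (p := fun T => E T i i' = 0) ?_ ?_ ?_ ?_ h
  · exact E_zero _ _
  · intro T1 T2 h1 h2
    rw [E_add, h1, h2, add_zero]
  · intro z T1 h1
    rw [E_smul, h1, mul_zero]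
  · intro g m s0 t0 _ _ _
    obtain ⟨x, a, s⟩ := i
    obtain ⟨s', z, h1, -, h3⟩ := of_not_low hi m t0
    rw [E_Op, if_neg]
    rintro ⟨-, h2⟩
    rw [(h3 x a).1] at h2
    rw [← h2] at hi'
    exact h1 hi'

/-- Along a path of invertible elements some component of level `k` survives. -/
lemma level_cut (γ : ℝ → AA) (hγ : Continuous γ) (hu : ∀ t, IsUnit (γ t)) :
    ∃ k, ∀ t ∈ Set.Icc (0 : ℝ) 1, ∀ (x : X) (a : ℤ),
      ∃ (b : ℤ) (s : R), Low k s ∧ E (γ t : H →L[ℂ] H) (x, b, s) (x, a, bot) ≠ 0 := by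
  have hu' : ∀ t, IsUnit (γ t : H →L[ℂ] H) := fun t => (hu t).map AA.subtype
  have hc : Continuous fun t : unitInterval => (γ t : H →L[ℂ] H) :=
    continuous_subtype_val.comp (hγ.comp continuous_subtype_val)
  have hc' : Continuous fun t : unitInterval => Ring.inverse (γ t : H →L[ℂ] H) := by
    refine continuous_iff_continuousAt.2 fun t => ?_
    obtain ⟨u, hu2⟩ := hu' t
    have := NormedRing.inverse_continuousAt u
    rw [hu2] at this
    exact ContinuousAt.comp (f := fun t : unitInterval => (γ t : H →L[ℂ] H)) this hc.continuousAt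
  obtain ⟨k, μ, hμ, hk⟩ := N.path_level (fun k => (Ak k : Set (H →L[ℂ] H)))
    (fun _ _ h => Ak_mono h) _ _ hc hc' (fun t => Ring.inverse_mul_cancel _ (hu' t)) (fun t => by
      rw [Metric.mem_closure_iff]
      intro ε hε
      obtain ⟨k, T', h1, h2⟩ := approx (γ t).2 hε
      exact ⟨T', Set.mem_iUnion.2 ⟨k, h1⟩, by rwa [dist_eq_norm]⟩)
  refine ⟨k, fun t ht x a => ?_⟩
  obtain ⟨h1, T, hT, h2⟩ := hk ⟨t, ht⟩
  have hn : ‖(lp.single 2 (x, a, bot) (1 : ℂ) : H)‖ = 1 := by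
    rw [lp.norm_single (by norm_num), norm_one]
  have h3 := h1 (lp.single 2 (x, a, bot) (1 : ℂ) : H)
  have h4 := ((γ t : H →L[ℂ] H) - T).le_opNorm (lp.single 2 (x, a, bot) (1 : ℂ) : H)
  rw [hn, mul_one] at h3 h4
  obtain ⟨⟨x', b, s⟩, h5, h6⟩ := N.exists_comp_ne
    ((γ t : H →L[ℂ] H) (lp.single 2 (x, a, bot) (1 : ℂ) : H))
    (T (lp.single 2 (x, a, bot) (1 : ℂ) : H)) ((h4.trans_lt h2).trans_le h3)
  have h7 : x' = x := by
    by_contra h8
    exact h5 (P4 (γ t).2 (i := (x', b, s)) (i' := (x, a, bot)) h8)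
  subst h7
  refine ⟨b, s, ?_, h5⟩
  by_contra h8
  exact h6 (P5 hT (i := (x', b, s)) (i' := (x', a, bot)) h8 (low_bot k))

end Pool.Agent.Lib.MP_f09365_an.M
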