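import Pool.Agent.Lib.MP_f09365_an.M.Props
import Pool.Agent.Lib.MP_f09365_an.N.Gen

open scoped Classical
open Topology Filter

noncomputable section

namespace Pool.Agent.Lib.MP_f09365_an.M

lemma smp_frame (r : R) : ∃ (κ : Type) (_ : Fintype κ) (e : κ → C(X, ℂ)),
    (∀ c, star (e c) = e c) ∧ ∑ c, e c * e c = 1 ∧
      ∀ c c' l x, e c (flp c' l x) = (sg c' l 0 r : ℂ) * e c x := by
  rcases eq_bot_or_isTop r with rfl | ⟨l0, h0⟩
  · exact ⟨Unit, inferInstance, fun _ => 1, fun _ => star_one _, by simp, fun _ _ _ _ => by simp⟩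
  · refine ⟨Option (V l0 × Bool), inferInstance, fun c => ⟨fun x => (((et x 0 l0).1 c : ℝ) : ℂ),
      Complex.continuous_ofReal.comp ((continuous_apply c).comp
        (continuous_subtype_val.comp (continuous_et 0 l0)))⟩, fun c => ?_, ?_, fun c c' l x => ?_⟩
    · ext x; simp
    · ext x
      have h := (et x 0 l0).2
      simp only [ContinuousMap.sum_apply, ContinuousMap.mul_apply, ContinuousMap.coe_mk,
        ContinuousMap.one_apply]
      simp only [← sq]
      exact_mod_cast h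
    · simp only [ContinuousMap.coe_mk, et_flp, sg]
      by_cases hc : c' = 0 ∧ IsTop r l
      · rw [if_pos hc, if_pos ⟨hc.1.symm, h0.unique hc.2⟩]
        simp [Sp.neg]
      · rw [if_neg hc, if_neg fun h : 0 = c' ∧ l0 = l => hc ⟨h.1.symm, h.2 ▸ h0⟩]
        simp

lemma smp_frame2 (s r : R) : ∃ (κ : Type) (_ : Fintype κ) (e : κ → C(X, ℂ)),
    (∀ c, star (e c) = e c) ∧ ∑ c, e c * e c = 1 ∧ ∀ c, Adm (e c) 0 s r := by
  obtain ⟨κ, _, e, h1, h2, h3⟩ := smp_frame s
  obtain ⟨κ', _, e', h1', h2', h3'⟩ := smp_frame r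
  refine ⟨κ × κ', inferInstance, fun p => e p.1 * e' p.2, fun p => ?_, ?_, fun p => ⟨?_, ?_⟩⟩
  · rw [star_mul, h1, h1', mul_comm]
  · rw [Fintype.sum_prod_type, ← h2]
    refine Finset.sum_congr rfl fun c _ => ?_
    rw [← mul_one (e c * e c), ← h2', Finset.mul_sum]
    exact Finset.sum_congr rfl fun c' _ => by ring
  · intro c l x
    simp only [ContinuousMap.mul_apply, h3, h3']
    ring
  · intro x c hc
    simp only [Btw, min_self, max_self] at hc
    omega

lemma Adm.smp_top {h : C(X, ℂ)} {s s' r : R} {l : ℕ} (a : Adm h 0 s r) (hs : IsTop s l)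
    (hs' : IsTop s' l) : Adm h 0 s' r := by
  refine ⟨fun c l' x => ?_, a.2⟩
  have : sg c l' 0 s' = sg c l' 0 s := by
    have : IsTop s' l' ↔ IsTop s l' :=
      ⟨fun h => hs'.unique h ▸ hs, fun h => hs.unique h ▸ hs'⟩
    simp only [sg, this]
  rw [this]
  exact a.1 c l' x

lemma smp_upd_inj {k l : ℕ} {t t' : R} (ht : Low k t) (ht' : Low k t') (hl : k ≤ l)
    {w w' : ZMod (nn l)} (h : upd t l (some w) = upd t' l (some w')) : t = t' ∧ w = w' := by
  have hf : Function.update t.f l (some w) = Function.update t'.f l (some w') := congrArg R.f h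
  refine ⟨R.ext (funext fun l' => ?_), ?_⟩
  · by_cases e : l' = l
    · subst e; rw [ht l' hl, ht' l' hl]
    · have := congrFun hf l'
      rwa [Function.update_of_ne e, Function.update_of_ne e] at this
  · have := congrFun hf l
    rw [Function.update_self, Function.update_self] at this
    exact Option.some.inj this

lemma smp_comp_zero (g : C(X, ℂ)) : g.comp (shC 0) = g := by
  ext x; simp

lemma smp_star_zero (k : ℕ) {g : C(X, ℂ)} (hg : star g = g) {s t : R} (hs : Low k s)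
    (ht : Low k t) : star (Op k g 0 s t) = Op k g 0 t s := by
  rw [Op_star k g 0 hs ht, neg_zero, smp_comp_zero, hg]

/-- Reading an operator of level `k` from a row of level `l + 1` that uses level `l`. -/
lemma smp_mul_high {k l : ℕ} (hl : k ≤ l) (g h : C(X, ℂ)) (m : ℤ) (r : R) {s s0 t0 : R}
    (hs : Low k s) (ht : Low k t0) :
    Op (l + 1) g 0 r (upd s l (some 0)) * Op k h m s0 t0 =
      if s = s0 then h (zz l) • Op (l + 1) g 0 r (upd t0 l (some (m : ZMod (nn l)))) else 0 := by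
  ext ξ i
  have h1 : low (l + 1) (mv (l + 1) 0 (upd s l (some 0)) i).2.2 = upd s l (some 0) := by
    rw [low_mv, low_eq_self (isTop_upd hs hl 0).2]
  obtain ⟨e1, e2, e3⟩ := of_low_upd hs ht hl 0 m _ h1
  rw [mul_apply_eq_comp, Op_apply, Op_apply, e1, e2, e3, mv_mv, shz_zero, zero_add,
    zero_add]
  by_cases e : s = s0
  · rw [if_pos e, if_pos e, smul_apply, lp.coeFn_smul, Pi.smul_apply, Op_apply,
      smul_eq_mul]
    ring
  · rw [if_neg e, if_neg e]; simp

lemma smp_sandwich {k l : ℕ} (hl : k ≤ l) (g h : C(X, ℂ)) {m m' : ℤ} (hm : |m' - m| < (nn l : ℤ))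
    (r : R) {s t s0 t0 : R} (hs : Low k s) (ht : Low k t) (ht0 : Low k t0) :
    Op (l + 1) g 0 r (upd s l (some 0)) * Op k h m' s0 t0 *
        Op (l + 1) g 0 (upd t l (some (m : ZMod (nn l)))) r =
      (if s0 = s ∧ m' = m ∧ t0 = t then h (zz l) else 0) • Op (l + 1) (g * g) 0 r r := by
  rw [smp_mul_high hl g h m' r hs ht0]
  by_cases e : s = s0
  · rw [if_pos e, smul_mul_assoc, Op_mul _ _ _ _ _ _ _ _ _ (isTop_upd ht0 hl _).2, smp_comp_zero,
      zero_add]
    by_cases e' : m' = m ∧ t0 = t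
    · rw [if_pos (by rw [e'.1, e'.2]), if_pos ⟨e.symm, e'⟩]
    · rw [if_neg, if_neg fun h => e' h.2, smul_zero, zero_smul]
      intro hh
      obtain ⟨a1, a2⟩ := smp_upd_inj ht0 ht hl hh
      refine e' ⟨?_, a1⟩
      rw [ZMod.intCast_eq_intCast_iff_dvd_sub] at a2
      have := Int.eq_zero_of_abs_lt_dvd a2 (by rwa [abs_sub_comm])
      omega
  · rw [if_neg e, if_neg fun h => e h.1.symm, zero_mul, zero_smul]

lemma smp_E_sum {ι : Type*} (F : Finset ι) (T : ι → (H →L[ℂ] H)) (i i' : I) :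
    E (∑ j ∈ F, T j) i i' = ∑ j ∈ F, E (T j) i i' := by
  induction F using Finset.induction_on with
  | empty => simp [E_zero]
  | insert j F hj ih => rw [Finset.sum_insert hj, Finset.sum_insert hj, E_add, ih]

theorem simple_AA (J : TwoSidedIdeal AA) (_hJ : IsClosed (J : Set AA)) : J = ⊥ ∨ J = ⊤ := by
  refine N.simple_of_approx (fun a ha => ?_) J
  obtain ⟨⟨x, a0, s⟩, ⟨x', b0, t⟩, hE⟩ : ∃ i i', E (a : H →L[ℂ] H) i i' ≠ 0 := by
    by_contra hc
    push Not at hc
    exact ha (Subtype.ext (E_ext fun i i' => by rw [hc i i']; exact (E_zero i i').symm))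
  obtain rfl : x = x' := by
    by_contra hc
    exact hE (P4 a.2 hc)
  obtain ⟨m, rfl⟩ : ∃ m, b0 = a0 + m := ⟨b0 - a0, by ring⟩
  have hμ : 0 < ‖E (a : H →L[ℂ] H) (x, a0, s) (x, a0 + m, t)‖ := norm_pos_iff.2 hE
  obtain ⟨k0, T, hT0, haT⟩ := approx a.2 (ε := ‖E (a : H →L[ℂ] H) (x, a0, s) (x, a0 + m, t)‖ / 4)
    (by positivity)
  obtain ⟨k1, hs1⟩ := exists_low s
  obtain ⟨k2, ht2⟩ := exists_low t
  obtain ⟨k, hT, hs, ht⟩ : ∃ k, T ∈ Ak k ∧ Low k s ∧ Low k t :=
    ⟨max k0 (max k1 k2), Ak_mono (le_max_left _ _) hT0,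
      hs1.mono (le_max_of_le_right (le_max_left _ _)),
      ht2.mono (le_max_of_le_right (le_max_right _ _))⟩
  obtain ⟨n, h, mm, ss, tt, hadm, hsum⟩ := Ak_eq_sum hT
  let f : X → ℂ := fun y => ∑ j, if ss j = s ∧ mm j = m ∧ tt j = t then h j y else 0
  have hf : Continuous f := continuous_finsetSum _ fun j _ => by
    split_ifs
    · exact (h j).continuous
    · exact continuous_const
  have hfx : E T (x, a0, s) (x, a0 + m, t) = f (sh a0 x) := by
    rw [hsum, smp_E_sum]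
    refine Finset.sum_congr rfl fun j _ => ?_
    rw [E_Op, mv_of_low hs (hadm j).2.1, pt_of_low hs, low_eq_self hs]
    refine if_congr ?_ rfl rfl
    simp only [Prod.mk.injEq, true_and, add_right_inj]
    exact and_congr_left' eq_comm
  have hbig : ‖E (a : H →L[ℂ] H) (x, a0, s) (x, a0 + m, t)‖ / 2 < ‖f (sh a0 x)‖ := by
    have e1 := norm_E_le ((a : H →L[ℂ] H) - T) (x, a0, s) (x, a0 + m, t)
    rw [E_sub, hfx] at e1
    have e2 := norm_sub_norm_le (E (a : H →L[ℂ] H) (x, a0, s) (x, a0 + m, t)) (f (sh a0 x))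
    linarith
  obtain ⟨l, hl, hz⟩ := zz_dense (sh a0 x)
    ((isOpen_lt continuous_const hf.norm).mem_nhds hbig) (max k (∑ j, (mm j - m).natAbs))
  have hkl : k ≤ l := le_of_max_le_left hl
  have hml : ∀ j, |mm j - m| < (nn l : ℤ) := fun j => by
    have e1 : (mm j - m).natAbs ≤ ∑ j, (mm j - m).natAbs :=
      Finset.single_le_sum (f := fun j => (mm j - m).natAbs) (fun _ _ => Nat.zero_le _)
        (Finset.mem_univ j)
    have e2 := le_of_max_le_right hl
    rw [← Int.natCast_natAbs]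
    have : (mm j - m).natAbs < nn l := by unfold nn; omega
    exact_mod_cast this
  have ts := isTop_upd hs hkl (0 : ZMod (nn l))
  have tt' := isTop_upd ht hkl (m : ZMod (nn l))
  choose κ hκ e he1 he2 he3 using smp_frame2 (upd s l (some 0))
  have hone : ∑ p : Σ r : Rk (l + 1), κ r, Op (l + 1) (e p.1 p.2 * e p.1 p.2) 0 p.1 p.1 = 1 := by
    rw [Fintype.sum_sigma, ← sum_Op_one (l + 1), ← Finset.sum_coe_sort (Rk (l + 1))]
    exact Finset.sum_congr rfl fun r _ => by rw [← he2 r, Op_sum]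
  have hsq : ∀ (u : R), Low (l + 1) u → ∑ p : Σ r : Rk (l + 1), κ r,
      star (Op (l + 1) (e p.1 p.2) 0 u p.1) * Op (l + 1) (e p.1 p.2) 0 u p.1 = 1 := fun u hu => by
    rw [← hone]
    refine Finset.sum_congr rfl fun p _ => ?_
    rw [smp_star_zero _ (he1 _ _) hu (mem_Rk.1 p.1.2), Op_mul _ _ _ _ _ _ _ _ _ hu, if_pos rfl,
      smp_comp_zero, zero_add]
  refine ⟨⟨T, Ak_sub_AA hT⟩, (Σ r : Rk (l + 1), κ r), Finset.univ,
    fun p => ⟨Op (l + 1) (e p.1 p.2) 0 (upd s l (some 0)) p.1,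
      Ak_sub_AA (Op_mem_Ak ts.2 (mem_Rk.1 p.1.2) (he3 _ _))⟩,
    fun p => ⟨Op (l + 1) (e p.1 p.2) 0 (upd t l (some (m : ZMod (nn l)))) p.1,
      Ak_sub_AA (Op_mem_Ak tt'.2 (mem_Rk.1 p.1.2) ((he3 _ _).smp_top ts tt'))⟩,
    f (zz l), Subtype.ext ?_, Subtype.ext ?_, Subtype.ext ?_, ?_⟩
  · rw [AddSubmonoidClass.coe_finsetSum]
    exact hsq _ ts.2
  · rw [AddSubmonoidClass.coe_finsetSum]
    exact hsq _ tt'.2
  · rw [AddSubmonoidClass.coe_finsetSum]
    change ∑ p : Σ r : Rk (l + 1), κ r, star (Op (l + 1) (e p.1 p.2) 0 (upd s l (some 0)) p.1) * T *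
      Op (l + 1) (e p.1 p.2) 0 (upd t l (some (m : ZMod (nn l)))) p.1 = f (zz l) • 1
    rw [← hone, Finset.smul_sum]
    refine Finset.sum_congr rfl fun p _ => ?_
    rw [smp_star_zero _ (he1 _ _) ts.2 (mem_Rk.1 p.1.2), hsum, Finset.mul_sum, Finset.sum_mul,
      Finset.sum_smul]
    exact Finset.sum_congr rfl fun j _ => smp_sandwich hkl _ _ (hml j) _ hs ht (hadm j).2.1
  · change ‖(a : H →L[ℂ] H) - T‖ < ‖f (zz l)‖
    have : ‖E (a : H →L[ℂ] H) (x, a0, s) (x, a0 + m, t)‖ / 2 < ‖f (zz l)‖ := hz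
    linarith

end Pool.Agent.Lib.MP_f09365_an.M
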