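import Pool.Agent.Lib.MP_f09365_an.M.Stmt

/-! Short forms of two notions used in the statement. -/

namespace Pool.Agent.Lib.MP_f09365_an.M

universe u

/-- The operator norm of a complex matrix. -/
noncomputable def matNorm {m : ℕ} (M : Matrix (Fin m) (Fin m) ℂ) : ℝ :=
  ‖Matrix.toEuclideanCLM (𝕜 := ℂ) M‖

/-- Nuclear: the completely positive approximation property through matrix algebras. -/
def IsNuclear (A : Type*) [CStarAlgebra A] : Prop :=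
  ∀ (F : Finset A) (ε : ℝ), 0 < ε →
    ∃ (m : ℕ) (ψ : A →ₗ[ℂ] Matrix (Fin m) (Fin m) ℂ) (φ : Matrix (Fin m) (Fin m) ℂ →ₗ[ℂ] A),
      CP ψ ∧ CP φ ∧ (∀ a, matNorm (ψ a) ≤ ‖a‖) ∧ (∀ M, ‖φ M‖ ≤ matNorm M) ∧
        ∀ a ∈ F, ‖φ (ψ a) - a‖ < ε

/-- The `B n` are subhomogeneous, and there are connecting maps and compatible maps to `A` whose
ranges have dense union. -/
def System (A : Type*) [CStarAlgebra A] (B : ℕ → Type*) [∀ n, NonUnitalCStarAlgebra (B n)] :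
    Prop :=
  ∃ (φ : ∀ n, B n →⋆ₙₐ[ℂ] B (n + 1)) (ι : ∀ n, B n →⋆ₙₐ[ℂ] A),
    (∀ n, Subhom (B n)) ∧ (∀ n b, ι (n + 1) (φ n b) = ι n b) ∧
      Dense (⋃ n, Set.range (ι n))

end Pool.Agent.Lib.MP_f09365_an.M
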