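import Mathlib

/-! The notions used in the statement. -/

namespace Pool.Agent.Lib.MP_f09365_an.M

universe u

/-- An irreducible representation: nonzero, and the only closed invariant subspaces are the
trivial ones. -/
def Irred {B H : Type*} [NonUnitalCStarAlgebra B] [NormedAddCommGroup H] [InnerProductSpace ℂ H]
    [CompleteSpace H] (π : B →⋆ₙₐ[ℂ] (H →L[ℂ] H)) : Prop :=
  (∃ b, π b ≠ 0) ∧
    ∀ K : Submodule ℂ H, IsClosed (K : Set H) → (∀ b : B, ∀ x ∈ K, π b x ∈ K) → K = ⊥ ∨ K = ⊤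

/-- Subhomogeneous: the dimensions of the irreducible representations are bounded. -/
def Subhom (B : Type*) [NonUnitalCStarAlgebra B] : Prop :=
  ∃ N : ℕ, ∀ (H : Type) [NormedAddCommGroup H] [InnerProductSpace ℂ H] [CompleteSpace H]
    (π : B →⋆ₙₐ[ℂ] (H →L[ℂ] H)), Irred π → Module.rank ℂ H ≤ N

/-- There is a sequence `B 0 → B 1 → ⋯` of subhomogeneous C*-algebras with compatible maps to `A`
whose ranges have dense union. Every inductive limit of such a sequence has this property. -/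
def WeakASH (A : Type*) [CStarAlgebra A] : Prop :=
  ∃ (B : ℕ → Type u) (_ : ∀ n, NonUnitalCStarAlgebra (B n))
    (φ : ∀ n, B n →⋆ₙₐ[ℂ] B (n + 1)) (ι : ∀ n, B n →⋆ₙₐ[ℂ] A),
    (∀ n, Subhom (B n)) ∧ (∀ n b, ι (n + 1) (φ n b) = ι n b) ∧
      Dense (⋃ n, Set.range (ι n))

/-- Completely positive: every amplification maps squares `B⋆B` to squares. -/
def CP {A A' : Type*} [Ring A] [StarRing A] [Algebra ℂ A] [Ring A'] [StarRing A'] [Algebra ℂ A']
    (φ : A →ₗ[ℂ] A') : Prop :=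
  ∀ (k : ℕ) (B : Matrix (Fin k) (Fin k) A),
    ∃ C : Matrix (Fin k) (Fin k) A', (star B * B).map φ = star C * C

/-- Nuclear: the completely positive approximation property through matrix algebras. -/
def Nuclear (A : Type*) [CStarAlgebra A] : Prop :=
  ∀ (F : Finset A) (ε : ℝ), 0 < ε →
    ∃ (m : ℕ) (ψ : A →ₗ[ℂ] Matrix (Fin m) (Fin m) ℂ) (φ : Matrix (Fin m) (Fin m) ℂ →ₗ[ℂ] A),
      CP ψ ∧ CP φ ∧ (∀ a, ‖Matrix.toEuclideanCLM (𝕜 := ℂ) (ψ a)‖ ≤ ‖a‖) ∧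
      (∀ M, ‖φ M‖ ≤ ‖Matrix.toEuclideanCLM (𝕜 := ℂ) M‖) ∧ ∀ a ∈ F, ‖φ (ψ a) - a‖ < ε

/-- A tracial state. -/
def IsTrace {A : Type*} [CStarAlgebra A] (τ : A →ₗ[ℂ] ℂ) : Prop :=
  (∀ a, 0 ≤ (τ (star a * a)).re ∧ (τ (star a * a)).im = 0) ∧ τ 1 = 1 ∧
    ∀ a b, τ (a * b) = τ (b * a)

end Pool.Agent.Lib.MP_f09365_an.M
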