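import Pool.Agent.Lib.MP_f09365_an.M.Props
import Pool.Agent.Lib.MP_f09365_an.N.Gen

open scoped Classical ComplexOrder
open Topology Filter

noncomputable section

namespace Pool.Agent.Lib.MP_f09365_an.M

open Pool.Agent.Lib.MP_f09365_an.N

/-- The finite set of basis vectors over `x`, at site `0`, with top level `l`. -/
def Xi (x : X) (l : ℕ) : Finset I := (Finset.univ : Finset (V l)).image fun s => (x, 0, s.1)

lemma mem_Xi {x : X} {l : ℕ} {i : I} : i ∈ Xi x l ↔ ∃ s, IsTop s l ∧ i = (x, 0, s) := by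
  simp only [Xi, Finset.mem_image, Finset.mem_univ, true_and]
  exact ⟨fun ⟨s, hs⟩ => ⟨s.1, s.2, hs.symm⟩, fun ⟨s, h, hs⟩ => ⟨⟨s, h⟩, hs.symm⟩⟩

lemma Xi_nonempty (x : X) (l : ℕ) : (Xi x l).Nonempty :=
  ⟨_, mem_Xi.2 ⟨_, isTop_upd (low_bot l) le_rfl 0, rfl⟩⟩

lemma E_Xi {x : X} {k l : ℕ} (hkl : k ≤ l) {T : H →L[ℂ] H} (hT : T ∈ Ak k) {i : I}
    (hi : i ∈ Xi x l) : ∀ j ∉ Xi x l, E T i j = 0 := by
  intro j hj
  induction hT using Submodule.span_induction with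
  | mem T hT =>
    obtain ⟨h, m, s, t, -, -, -, rfl⟩ := hT
    obtain ⟨r, hr, rfl⟩ := mem_Xi.1 hi
    rw [E_Op, if_neg]
    rintro ⟨-, h2⟩
    obtain ⟨r', z, -, h3, h4⟩ := of_not_low (k := k) (s := r)
      (fun hl => absurd (hr.lt hl) (not_lt.2 hkl)) m t
    exact hj (mem_Xi.2 ⟨r', (h3 l).2 hr, by rw [← h2, (h4 x 0).1]⟩)
  | zero => exact E_zero _ _
  | add T T' _ _ h h' => rw [E_add, h, h', add_zero]
  | smul c T _ h => rw [E_smul, h, mul_zero]

/-- The normalised trace of the compression to `Xi x l`. -/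
def tauL (x : X) (l : ℕ) : AA →ₗ[ℂ] ℂ where
  toFun T := ((Xi x l).card : ℂ)⁻¹ * ∑ i ∈ Xi x l, E (T : H →L[ℂ] H) i i
  map_add' T T' := by simp [E_add, Finset.sum_add_distrib, mul_add]
  map_smul' c T := by
    simp only [SetLike.val_smul, E_smul, ← Finset.mul_sum, RingHom.id_apply, smul_eq_mul]
    ring

lemma tauL_apply (x : X) (l : ℕ) (T : AA) :
    tauL x l T = ((Xi x l).card : ℂ)⁻¹ * ∑ i ∈ Xi x l, E (T : H →L[ℂ] H) i i := rfl

theorem trace_AA : ∃ τ : AA →ₗ[ℂ] ℂ, IsTrace τ := by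
  obtain ⟨x⟩ : Nonempty X := inferInstance
  have hc : ∀ l, (0 : ℝ) < (Xi x l).card := fun l => by
    exact_mod_cast (Xi_nonempty x l).card_pos
  refine Exists.imp (fun t ⟨h1, h2, _, h3⟩ => ⟨fun a => ⟨(Complex.nonneg_iff.1 (h2 a)).1,
    (Complex.nonneg_iff.1 (h2 a)).2.symm⟩, h1, h3⟩)
    (trace_of_limit (tauL x) (fun l => ?_) (fun l a => ?_)
      (fun l a => ?_) (fun k => {a : AA | (a : H →L[ℂ] H) ∈ Ak k})
      (fun k k' h a ha => Ak_mono h ha) ?_ (fun k l hkl a ha b hb => ?_))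
  · have : ((Xi x l).card : ℂ) ≠ 0 := by exact_mod_cast (Xi_nonempty x l).card_pos.ne'
    simp [tauL_apply, E_one, this]
  · rw [tauL_apply]
    refine mul_nonneg (by simp) (Finset.sum_nonneg fun i _ => ?_)
    rw [E_eq_inner, MulMemClass.coe_mul, StarMemClass.coe_star, mul_apply_eq_comp,
      ContinuousLinearMap.star_eq_adjoint, ContinuousLinearMap.adjoint_inner_right,
      inner_self_eq_norm_sq_to_K]
    exact sq_nonneg' _
  · rw [tauL_apply, norm_mul, norm_inv, Complex.norm_natCast, inv_mul_le_iff₀ (hc l)]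
    refine (_root_.norm_sum_le _ _).trans ?_
    rw [← nsmul_eq_mul]
    exact Finset.sum_le_card_nsmul _ _ _ fun i _ => norm_E_le _ i i
  · rw [Metric.dense_iff]
    intro a ε hε
    obtain ⟨k, T, hT, h⟩ := approx a.2 hε
    refine ⟨⟨T, Ak_sub_AA hT⟩, ?_, Set.mem_iUnion.2 ⟨k, hT⟩⟩
    rw [Metric.mem_ball, dist_comm, dist_eq_norm]
    exact h
  · rw [tauL_apply, tauL_apply, MulMemClass.coe_mul, MulMemClass.coe_mul,
      Finset.sum_congr rfl fun i hi => E_mul _ _ i i _ (E_Xi hkl ha hi),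
      Finset.sum_congr rfl fun i hi => E_mul _ _ i i _ (E_Xi hkl hb hi), Finset.sum_comm]
    simp only [mul_comm]

end Pool.Agent.Lib.MP_f09365_an.M
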